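import Mathlib

/-!
# Almost sure convergence of logarithmic means

`lm f N` is the logarithmic mean `(∑_{n ≤ N} f n / n) / log N`.  If the events `E m` and `E n`,
`m < n`, have a covariance at most `C (m / n) log n`, and the probability of `E n` converges, then
almost surely the set of the `n` such that `E n` occurs has the logarithmic density
`lim μ (E n)`.
-/

set_option autoImplicit false

namespace Pool.Agent.H595.AS

open Finset MeasureTheory Filter
open scoped Topology

/-- The logarithmic mean up to `N`. -/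
noncomputable def lm (f : ℕ → ℝ) (N : ℕ) : ℝ := (∑ n ∈ Icc 1 N, f n / n) / Real.log N

theorem log_tendsto : Tendsto (fun N : ℕ => Real.log N) atTop atTop :=
  Real.tendsto_log_atTop.comp tendsto_natCast_atTop_atTop

theorem harm_eq (N : ℕ) : ∑ n ∈ Icc 1 N, (1 : ℝ) / n = (harmonic N : ℝ) := by
  rw [harmonic_eq_sum_Icc]
  push_cast
  exact Finset.sum_congr rfl fun n _ => by rw [one_div]

theorem lm_one : Tendsto (lm fun _ => 1) atTop (𝓝 1) := by
  have h1 : Tendsto (fun N : ℕ => (harmonic N : ℝ) - Real.log N) atTop (𝓝 Real.eulerMascheroniConstant) :=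
    Real.tendsto_harmonic_sub_log
  have h2 : Tendsto (fun N : ℕ => ((harmonic N : ℝ) - Real.log N) / Real.log N) atTop (𝓝 0) :=
    h1.div_atTop log_tendsto
  have h3 : Tendsto (fun N : ℕ => 1 + ((harmonic N : ℝ) - Real.log N) / Real.log N) atTop (𝓝 (1 + 0)) :=
    tendsto_const_nhds.add h2
  rw [add_zero] at h3
  refine h3.congr' ?_
  filter_upwards [log_tendsto.eventually_gt_atTop 0] with N hN
  unfold lm
  rw [harm_eq, sub_div, div_self hN.ne']
  ring

theorem lm_const (c : ℝ) : Tendsto (lm fun _ => c) atTop (𝓝 c) := by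
  have h := lm_one.const_mul c
  rw [mul_one] at h
  refine h.congr fun N => ?_
  unfold lm
  rw [← mul_div_assoc, Finset.mul_sum]
  congr 1
  exact Finset.sum_congr rfl fun n _ => by rw [mul_one_div]

theorem lm_add (f g : ℕ → ℝ) (N : ℕ) : lm (fun n => f n + g n) N = lm f N + lm g N := by
  unfold lm
  rw [← add_div, ← Finset.sum_add_distrib]
  congr 1
  exact Finset.sum_congr rfl fun n _ => by rw [add_div]

theorem lm_sub (f g : ℕ → ℝ) (N : ℕ) : lm (fun n => f n - g n) N = lm f N - lm g N := by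
  unfold lm
  rw [← sub_div, ← Finset.sum_sub_distrib]
  congr 1
  exact Finset.sum_congr rfl fun n _ => by rw [sub_div]

theorem lm_sum {κ : Type*} (s : Finset κ) (f : κ → ℕ → ℝ) (N : ℕ) :
    lm (fun n => ∑ i ∈ s, f i n) N = ∑ i ∈ s, lm (f i) N := by
  classical
  induction s using Finset.induction_on with
  | empty => simp [lm]
  | insert i s hi ih =>
    rw [Finset.sum_insert hi, ← ih, ← lm_add]
    congr 1
    funext n
    rw [Finset.sum_insert hi]

/-- Changing finitely many values does not matter. -/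
theorem lm_le_of_eventually {f g : ℕ → ℝ} (h : ∀ᶠ n in atTop, f n ≤ g n) :
    ∃ K : ℝ, 0 ≤ K ∧ ∀ᶠ N in atTop, lm f N ≤ lm g N + K / Real.log N := by
  obtain ⟨n0, h0⟩ := eventually_atTop.1 h
  refine ⟨∑ n ∈ Ico 1 n0, (|f n| + |g n|), Finset.sum_nonneg fun n _ => by positivity, ?_⟩
  filter_upwards [log_tendsto.eventually_gt_atTop 0] with N hN
  unfold lm
  rw [← add_div]
  refine div_le_div_of_nonneg_right ?_ hN.le
  have e1 : ∀ n ∈ Icc 1 N, f n / n ≤ g n / n + (if n < n0 then |f n| + |g n| else 0) := by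
    intro n hn
    rw [mem_Icc] at hn
    have hn1 : (1 : ℝ) ≤ n := by exact_mod_cast hn.1
    split_ifs with h1
    · have a1 : f n / n ≤ |f n| := by
        rw [div_le_iff₀ (by linarith)]
        nlinarith [le_abs_self (f n), abs_nonneg (f n)]
      have a2 : -|g n| ≤ g n / n := by
        rw [le_div_iff₀ (by linarith)]
        nlinarith [neg_abs_le (g n), abs_nonneg (g n)]
      linarith
    · have := h0 n (by omega)
      rw [add_zero]
      exact div_le_div_of_nonneg_right this (by linarith)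
  refine (Finset.sum_le_sum e1).trans ?_
  rw [Finset.sum_add_distrib]
  gcongr
  rw [← Finset.sum_filter]
  refine Finset.sum_le_sum_of_subset_of_nonneg ?_ fun n _ _ => by positivity
  intro n hn
  rw [mem_filter, mem_Icc] at hn
  rw [mem_Ico]
  exact ⟨hn.1.1, hn.2⟩

/-- The sandwich. -/
theorem lm_squeeze {f : ℕ → ℝ} {l : ℝ} (h : ∀ ε : ℝ, 0 < ε → ∃ (g₁ g₂ : ℕ → ℝ) (l₁ l₂ : ℝ),
    (∀ᶠ n in atTop, g₁ n ≤ f n) ∧ (∀ᶠ n in atTop, f n ≤ g₂ n) ∧ Tendsto (lm g₁) atTop (𝓝 l₁) ∧
    Tendsto (lm g₂) atTop (𝓝 l₂) ∧ l - ε ≤ l₁ ∧ l₂ ≤ l + ε) : Tendsto (lm f) atTop (𝓝 l) := by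
  rw [tendsto_order]
  constructor
  · intro a ha
    obtain ⟨g₁, g₂, l₁, l₂, h1, -, h3, -, h5, -⟩ := h ((l - a) / 2) (by linarith)
    obtain ⟨K, hK, h6⟩ := lm_le_of_eventually h1
    have h7 : Tendsto (fun N : ℕ => K / Real.log N) atTop (𝓝 0) := tendsto_const_nhds.div_atTop log_tendsto
    have h8 : Tendsto (fun N : ℕ => lm g₁ N - K / Real.log N) atTop (𝓝 (l₁ - 0)) := h3.sub h7
    rw [sub_zero] at h8
    filter_upwards [h8.eventually (eventually_gt_nhds (show a < l₁ by linarith)), h6] with N e1 e2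
    linarith
  · intro b hb
    obtain ⟨g₁, g₂, l₁, l₂, -, h2, -, h4, -, h5⟩ := h ((b - l) / 2) (by linarith)
    obtain ⟨K, hK, h6⟩ := lm_le_of_eventually h2
    have h7 : Tendsto (fun N : ℕ => K / Real.log N) atTop (𝓝 0) := tendsto_const_nhds.div_atTop log_tendsto
    have h8 : Tendsto (fun N : ℕ => lm g₂ N + K / Real.log N) atTop (𝓝 (l₂ + 0)) := h4.add h7
    rw [add_zero] at h8
    filter_upwards [h8.eventually (eventually_lt_nhds (show l₂ < b by linarith)), h6] with N e1 e2
    linarith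

/-- The mean of a convergent sequence. -/
theorem lm_of_tendsto {f : ℕ → ℝ} {l : ℝ} (h : Tendsto f atTop (𝓝 l)) : Tendsto (lm f) atTop (𝓝 l) := by
  refine lm_squeeze fun ε hε => ⟨fun _ => l - ε, fun _ => l + ε, l - ε, l + ε, ?_, ?_, lm_const _, lm_const _, le_rfl, le_rfl⟩
  · filter_upwards [h.eventually (eventually_gt_nhds (show l - ε < l by linarith))] with n hn using hn.le
  · filter_upwards [h.eventually (eventually_lt_nhds (show l < l + ε by linarith))] with n hn using hn.le

/-! ### From a sparse sequence to all `N` -/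

/-- The sparse sequence. -/
def nk (k : ℕ) : ℕ := 2 ^ (k ^ 4)

theorem nk_mono : StrictMono nk := fun a b h => Nat.pow_lt_pow_right (by norm_num) (Nat.pow_lt_pow_left h (by norm_num))

theorem log_nk (k : ℕ) : Real.log (nk k) = (k : ℝ) ^ 4 * Real.log 2 := by
  unfold nk
  push_cast
  rw [Real.log_pow]
  push_cast
  rfl

theorem nk_ratio : Tendsto (fun k : ℕ => Real.log (nk (k + 1)) / Real.log (nk k)) atTop (𝓝 1) := by
  have h1 : Tendsto (fun k : ℕ => (1 : ℝ) + 1 / k) atTop (𝓝 (1 + 0)) :=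
    tendsto_const_nhds.add tendsto_one_div_atTop_nhds_zero_nat
  have h2 := h1.pow 4
  rw [add_zero, one_pow] at h2
  refine h2.congr' ?_
  filter_upwards [eventually_gt_atTop 0] with k hk
  have hk' : (0 : ℝ) < k := by exact_mod_cast hk
  have hl : 0 < Real.log 2 := Real.log_pos (by norm_num)
  rw [log_nk, log_nk]
  push_cast
  field_simp

theorem interp {f : ℕ → ℝ} (hf : ∀ n, 0 ≤ f n) {l : ℝ} (h : Tendsto (fun k => lm f (nk k)) atTop (𝓝 l)) :
    Tendsto (lm f) atTop (𝓝 l) := by
  have hmono : ∀ {M N : ℕ}, M ≤ N → ∑ n ∈ Icc 1 M, f n / n ≤ ∑ n ∈ Icc 1 N, f n / n := fun hMN =>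
    Finset.sum_le_sum_of_subset_of_nonneg (Icc_subset_Icc_right hMN) fun n _ _ => div_nonneg (hf n) (Nat.cast_nonneg _)
  have hr := nk_ratio
  have hri := nk_ratio.inv₀ one_ne_zero
  rw [inv_one] at hri
  have hlow : Tendsto (fun k => lm f (nk k) * (Real.log (nk (k + 1)) / Real.log (nk k))⁻¹) atTop (𝓝 (l * 1)) := h.mul hri
  have hup : Tendsto (fun k => lm f (nk (k + 1)) * (Real.log (nk (k + 1)) / Real.log (nk k))) atTop (𝓝 (l * 1)) :=
    (h.comp (tendsto_add_atTop_nat 1)).mul hr
  rw [mul_one] at hlow hup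
  have key : ∀ k, 1 ≤ k → ∀ N, nk k ≤ N → N ≤ nk (k + 1) →
      lm f (nk k) * (Real.log (nk (k + 1)) / Real.log (nk k))⁻¹ ≤ lm f N ∧
      lm f N ≤ lm f (nk (k + 1)) * (Real.log (nk (k + 1)) / Real.log (nk k)) := by
    intro k hk N h1 h2
    have hl2 : 0 < Real.log 2 := Real.log_pos (by norm_num)
    have hk' : (0 : ℝ) < k := by exact_mod_cast hk
    have c1 : 0 < Real.log (nk k) := by rw [log_nk]; positivity
    have c2 : 0 < Real.log (nk (k + 1)) := by rw [log_nk]; positivity
    have n0 : 0 < nk k := by unfold nk; positivity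
    have c3 : Real.log (nk k) ≤ Real.log N := Real.log_le_log (by exact_mod_cast n0) (by exact_mod_cast h1)
    have c4 : Real.log N ≤ Real.log (nk (k + 1)) :=
      Real.log_le_log (by exact_mod_cast (by omega : 0 < N)) (by exact_mod_cast h2)
    have c5 : 0 < Real.log N := by linarith
    have s0 : ∀ M, 0 ≤ ∑ n ∈ Icc 1 M, f n / n := fun M => Finset.sum_nonneg fun n _ => div_nonneg (hf n) (Nat.cast_nonneg _)
    have e1 : lm f (nk k) * (Real.log (nk (k + 1)) / Real.log (nk k))⁻¹ = (∑ n ∈ Icc 1 (nk k), f n / n) / Real.log (nk (k + 1)) := by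
      unfold lm
      field_simp
    have e2 : lm f (nk (k + 1)) * (Real.log (nk (k + 1)) / Real.log (nk k)) = (∑ n ∈ Icc 1 (nk (k + 1)), f n / n) / Real.log (nk k) := by
      unfold lm
      field_simp
    rw [e1, e2]
    constructor
    · unfold lm
      exact div_le_div₀ (s0 _) (hmono h1) c5 c4
    · unfold lm
      exact div_le_div₀ (s0 _) (hmono h2) c1 c3
  have hall : ∀ P : ℕ → Prop, (∀ᶠ k in atTop, ∀ N, nk k ≤ N → N ≤ nk (k + 1) → P N) → ∀ᶠ N in atTop, P N := by
    intro P hP
    obtain ⟨k0, h0⟩ := eventually_atTop.1 hP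
    rw [eventually_atTop]
    refine ⟨nk k0, fun N hN => ?_⟩
    have hex : ∃ k, N < nk k := ⟨N + 1, lt_of_lt_of_le (Nat.lt_succ_self N) (nk_mono.le_apply)⟩
    classical
    have h1 := Nat.find_spec hex
    have h2 : k0 < Nat.find hex := by
      by_contra hcon
      push Not at hcon
      have := nk_mono.monotone hcon
      omega
    obtain ⟨j, hj⟩ : ∃ j, Nat.find hex = j + 1 := ⟨Nat.find hex - 1, by omega⟩
    have h3 : ¬ N < nk j := Nat.find_min hex (by omega)
    rw [hj] at h1
    exact h0 j (by omega) N (by omega) h1.le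
  rw [tendsto_order]
  constructor
  · intro a ha
    refine hall _ ?_
    filter_upwards [hlow.eventually (eventually_gt_nhds ha), eventually_ge_atTop 1] with k e1 e2 N e3 e4
    exact e1.trans_le (key k e2 N e3 e4).1
  · intro b hb
    refine hall _ ?_
    filter_upwards [hup.eventually (eventually_lt_nhds hb), eventually_ge_atTop 1] with k e1 e2 N e3 e4
    exact (key k e2 N e3 e4).2.trans_lt e1

end Pool.Agent.H595.AS
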