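import Pool.Agent.H595.AS.Abs
import Pool.Graph.R_pool_sql_team_seeded_3997aac3.Q120.GM.Indep

/-!
# The almost sure law of logarithmic means of weakly correlated events
-/

set_option autoImplicit false

namespace Pool.Agent.H595.AS

open Finset MeasureTheory Filter
open scoped Topology

variable {Ω : Type*} [MeasurableSpace Ω] {μ : Measure Ω} [IsProbabilityMeasure μ]

/-- Bounded and measurable. -/
def BM (f : Ω → ℝ) : Prop := Measurable f ∧ ∃ C : ℝ, ∀ ω, |f ω| ≤ C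

theorem BM.int {f : Ω → ℝ} (h : BM f) : Integrable f μ := by
  obtain ⟨h1, C, h2⟩ := h
  exact Integrable.of_bound h1.aestronglyMeasurable C (ae_of_all _ fun ω => by rw [Real.norm_eq_abs]; exact h2 ω)

theorem BM.add {f g : Ω → ℝ} (hf : BM f) (hg : BM g) : BM (fun ω => f ω + g ω) := by
  obtain ⟨h1, C, h2⟩ := hf
  obtain ⟨h3, D, h4⟩ := hg
  exact ⟨h1.add h3, C + D, fun ω => (abs_add_le _ _).trans (add_le_add (h2 ω) (h4 ω))⟩

theorem BM.mul {f g : Ω → ℝ} (hf : BM f) (hg : BM g) : BM (fun ω => f ω * g ω) := by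
  obtain ⟨h1, C, h2⟩ := hf
  obtain ⟨h3, D, h4⟩ := hg
  refine ⟨h1.mul h3, C * D, fun ω => ?_⟩
  rw [abs_mul]
  exact mul_le_mul (h2 ω) (h4 ω) (abs_nonneg _) ((abs_nonneg _).trans (h2 ω))

theorem BM.const (c : ℝ) : BM (fun _ : Ω => c) := ⟨measurable_const, |c|, fun _ => le_rfl⟩

theorem BM.sum {κ : Type*} (s : Finset κ) {f : κ → Ω → ℝ} (hf : ∀ i ∈ s, BM (f i)) : BM (fun ω => ∑ i ∈ s, f i ω) := by
  classical
  induction s using Finset.induction_on with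
  | empty => simpa using (BM.const (Ω := Ω) 0)
  | insert i s hi ih =>
    have h1 := (hf i (mem_insert_self i s)).add (ih fun j hj => hf j (mem_insert_of_mem hj))
    have h2 : (fun ω => ∑ j ∈ insert i s, f j ω) = fun ω => f i ω + ∑ j ∈ s, f j ω := by
      funext ω
      rw [Finset.sum_insert hi]
    rw [h2]
    exact h1

theorem BM.ind {E : Set Ω} (hE : MeasurableSet E) : BM (E.indicator fun _ => (1 : ℝ)) := by
  refine ⟨measurable_const.indicator hE, 1, fun ω => ?_⟩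
  by_cases h : ω ∈ E
  · simp [h]
  · simp [h]

/-- The centred indicator. -/
noncomputable def yy (μ : Measure Ω) (E : ℕ → Set Ω) (n : ℕ) (ω : Ω) : ℝ :=
  (E n).indicator (fun _ => (1 : ℝ)) ω + -μ.real (E n)

variable {E : ℕ → Set Ω}

omit [IsProbabilityMeasure μ] in
theorem yy_bm (hE : ∀ n, MeasurableSet (E n)) (n : ℕ) : BM (yy μ E n) := (BM.ind (hE n)).add (BM.const _)

theorem yy_cov (hE : ∀ n, MeasurableSet (E n)) (m n : ℕ) :
    ∫ ω, yy μ E m ω * yy μ E n ω ∂μ = μ.real (E m ∩ E n) - μ.real (E m) * μ.real (E n) := by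
  have h1 : ∀ ω, yy μ E m ω * yy μ E n ω = (E m ∩ E n).indicator (fun _ => (1 : ℝ)) ω +
      (-μ.real (E n)) * (E m).indicator (fun _ => (1 : ℝ)) ω + (-μ.real (E m)) * (E n).indicator (fun _ => (1 : ℝ)) ω +
      μ.real (E m) * μ.real (E n) := by
    intro ω
    unfold yy
    by_cases ha : ω ∈ E m <;> by_cases hb : ω ∈ E n <;> simp [ha, hb] <;> ring
  have hi : ∀ F : Set Ω, MeasurableSet F → ∫ ω, F.indicator (fun _ => (1 : ℝ)) ω ∂μ = μ.real F := by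
    intro F hF
    rw [integral_indicator_const _ hF, smul_eq_mul, mul_one]
  have b1 : BM ((E m ∩ E n).indicator fun _ => (1 : ℝ)) := BM.ind ((hE m).inter (hE n))
  have b2 : BM (fun ω => (-μ.real (E n)) * (E m).indicator (fun _ => (1 : ℝ)) ω) := (BM.const _).mul (BM.ind (hE m))
  have b3 : BM (fun ω => (-μ.real (E m)) * (E n).indicator (fun _ => (1 : ℝ)) ω) := (BM.const _).mul (BM.ind (hE n))
  simp_rw [h1]
  rw [integral_add ((b1.add b2).add b3).int (BM.const _).int, integral_add (b1.add b2).int b3.int,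
    integral_add b1.int b2.int, integral_const_mul, integral_const_mul, hi _ ((hE m).inter (hE n)), hi _ (hE m),
    hi _ (hE n), integral_const, smul_eq_mul]
  simp
  ring

theorem cov_le_one (F G : Set Ω) : |μ.real (F ∩ G) - μ.real F * μ.real G| ≤ 1 := by
  have h1 : μ.real (F ∩ G) ≤ 1 := measureReal_le_one
  have h2 : 0 ≤ μ.real (F ∩ G) := measureReal_nonneg
  have h3 : μ.real F * μ.real G ≤ 1 := mul_le_one₀ measureReal_le_one measureReal_nonneg measureReal_le_one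
  have h4 : 0 ≤ μ.real F * μ.real G := by positivity
  rw [abs_le]
  constructor <;> linarith

/-- The centred sum. -/
noncomputable def ss (μ : Measure Ω) (E : ℕ → Set Ω) (N : ℕ) (ω : Ω) : ℝ := ∑ n ∈ Icc 1 N, 1 / (n : ℝ) * yy μ E n ω

omit [IsProbabilityMeasure μ] in
theorem ss_bm (hE : ∀ n, MeasurableSet (E n)) (N : ℕ) : BM (ss μ E N) :=
  BM.sum _ fun n _ => (BM.const _).mul (yy_bm hE n)

theorem sqrt_sum (N : ℕ) : ∑ m ∈ Icc 1 N, 1 / √(m : ℝ) ≤ 2 * √N := by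
  induction N with
  | zero => simp
  | succ N ih =>
    rw [Finset.sum_Icc_succ_top (by omega)]
    refine (add_le_add_left ih _).trans ?_
    have h1 : (0 : ℝ) < ((N + 1 : ℕ) : ℝ) := by positivity
    have h2 : 0 < √((N + 1 : ℕ) : ℝ) := Real.sqrt_pos.2 h1
    have h3 : √(N : ℝ) ≤ √((N + 1 : ℕ) : ℝ) := Real.sqrt_le_sqrt (by push_cast; linarith)
    have h4 : √((N + 1 : ℕ) : ℝ) ^ 2 = N + 1 := by rw [Real.sq_sqrt h1.le]; push_cast; ring
    have h5 : √(N : ℝ) ^ 2 = N := Real.sq_sqrt (Nat.cast_nonneg _)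
    have h6 : 0 ≤ √(N : ℝ) := Real.sqrt_nonneg _
    have h7 : 1 / √((N + 1 : ℕ) : ℝ) ≤ 2 * (√((N + 1 : ℕ) : ℝ) - √N) := by
      rw [div_le_iff₀ h2]
      nlinarith
    linarith

theorem le_sqrt_of {a t : ℝ} (h1 : a ≤ 1) (h2 : a ≤ t) (ht : 0 ≤ t) : a ≤ √t := by
  rcases le_or_gt 1 t with h | h
  · exact h1.trans (Real.one_le_sqrt.2 h)
  · refine h2.trans ?_
    refine Real.le_sqrt_of_sq_le ?_
    nlinarith

theorem step (hE : ∀ n, MeasurableSet (E n)) {C : ℝ} (hC : 0 ≤ C)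
    (hc : ∀ m n, 1 ≤ m → m < n → |μ.real (E m ∩ E n) - μ.real (E m) * μ.real (E n)| ≤ C * ((m : ℝ) / n) * Real.log n)
    (N : ℕ) : ∫ ω, ss μ E (N + 1) ω ^ 2 ∂μ ≤ ∫ ω, ss μ E N ω ^ 2 ∂μ +
      (4 * √(C * Real.log (N + 1 : ℕ)) + 1) * (1 / ((N + 1 : ℕ) : ℝ)) := by
  have hN : (0 : ℝ) < ((N + 1 : ℕ) : ℝ) := by positivity
  have hlog : 0 ≤ Real.log (N + 1 : ℕ) := Real.log_natCast_nonneg _
  have h1 : ∀ ω, ss μ E (N + 1) ω ^ 2 = ss μ E N ω * ss μ E N ω +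
      (∑ m ∈ Icc 1 N, (2 / ((N + 1 : ℕ) : ℝ) * (1 / (m : ℝ))) * (yy μ E m ω * yy μ E (N + 1) ω)) +
      (1 / ((N + 1 : ℕ) : ℝ)) ^ 2 * (yy μ E (N + 1) ω * yy μ E (N + 1) ω) := by
    intro ω
    have e1 : ss μ E (N + 1) ω = ss μ E N ω + 1 / ((N + 1 : ℕ) : ℝ) * yy μ E (N + 1) ω := by
      unfold ss
      rw [Finset.sum_Icc_succ_top (by omega)]
    have e2 : ∑ m ∈ Icc 1 N, (2 / ((N + 1 : ℕ) : ℝ) * (1 / (m : ℝ))) * (yy μ E m ω * yy μ E (N + 1) ω) =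
        2 / ((N + 1 : ℕ) : ℝ) * yy μ E (N + 1) ω * ss μ E N ω := by
      unfold ss
      rw [Finset.mul_sum]
      exact Finset.sum_congr rfl fun m _ => by ring
    rw [e1, e2]
    ring
  have b0 := ss_bm (μ := μ) hE N
  have b1 := fun n => yy_bm (μ := μ) hE n
  have b2 : ∀ m : ℕ, BM (fun ω => (2 / ((N + 1 : ℕ) : ℝ) * (1 / (m : ℝ))) * (yy μ E m ω * yy μ E (N + 1) ω)) :=
    fun m => (BM.const _).mul ((b1 m).mul (b1 (N + 1)))
  have b3 : BM (fun ω => (1 / ((N + 1 : ℕ) : ℝ)) ^ 2 * (yy μ E (N + 1) ω * yy μ E (N + 1) ω)) :=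
    (BM.const _).mul ((b1 _).mul (b1 _))
  have b4 := BM.sum (Icc 1 N) fun m _ => b2 m
  simp_rw [h1]
  rw [integral_add ((b0.mul b0).add b4).int b3.int, integral_add (b0.mul b0).int b4.int, integral_finsetSum _ fun m _ => (b2 m).int]
  simp_rw [integral_const_mul, yy_cov hE]
  have e0 : ∫ ω, ss μ E N ω * ss μ E N ω ∂μ = ∫ ω, ss μ E N ω ^ 2 ∂μ := by simp_rw [← pow_two]
  rw [e0]
  have e1 : (1 / ((N + 1 : ℕ) : ℝ)) ^ 2 * (μ.real (E (N + 1) ∩ E (N + 1)) - μ.real (E (N + 1)) * μ.real (E (N + 1))) ≤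
      1 / ((N + 1 : ℕ) : ℝ) := by
    have a1 := (abs_le.1 (cov_le_one (μ := μ) (E (N + 1)) (E (N + 1)))).2
    have a2 : (1 / ((N + 1 : ℕ) : ℝ)) ≤ 1 := by
      rw [div_le_one hN]
      exact_mod_cast (by omega : 1 ≤ N + 1)
    have a3 : 0 ≤ 1 / ((N + 1 : ℕ) : ℝ) := by positivity
    calc (1 / ((N + 1 : ℕ) : ℝ)) ^ 2 * (μ.real (E (N + 1) ∩ E (N + 1)) - μ.real (E (N + 1)) * μ.real (E (N + 1)))
        ≤ (1 / ((N + 1 : ℕ) : ℝ)) ^ 2 * 1 := mul_le_mul_of_nonneg_left a1 (by positivity)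
      _ ≤ 1 / ((N + 1 : ℕ) : ℝ) := by nlinarith
  have e2 : ∑ m ∈ Icc 1 N, (2 / ((N + 1 : ℕ) : ℝ) * (1 / (m : ℝ))) * (μ.real (E m ∩ E (N + 1)) - μ.real (E m) * μ.real (E (N + 1))) ≤
      4 * √(C * Real.log (N + 1 : ℕ)) * (1 / ((N + 1 : ℕ) : ℝ)) := by
    have a1 : ∀ m ∈ Icc 1 N, (2 / ((N + 1 : ℕ) : ℝ) * (1 / (m : ℝ))) * (μ.real (E m ∩ E (N + 1)) - μ.real (E m) * μ.real (E (N + 1))) ≤
        2 / ((N + 1 : ℕ) : ℝ) * √(C * Real.log (N + 1 : ℕ) / ((N + 1 : ℕ) : ℝ)) * (1 / √(m : ℝ)) := by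
      intro m hm
      rw [mem_Icc] at hm
      have hm0 : (0 : ℝ) < m := by exact_mod_cast (by omega : 0 < m)
      have a2 := hc m (N + 1) hm.1 (by omega)
      have a3 := cov_le_one (μ := μ) (E m) (E (N + 1))
      have a4 : 0 ≤ C * ((m : ℝ) / (N + 1 : ℕ)) * Real.log (N + 1 : ℕ) := by positivity
      have a5 := (le_abs_self _).trans (le_sqrt_of a3 a2 a4)
      have a6 : √(C * ((m : ℝ) / (N + 1 : ℕ)) * Real.log (N + 1 : ℕ)) = √(C * Real.log (N + 1 : ℕ) / ((N + 1 : ℕ) : ℝ)) * √m := by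
        rw [← Real.sqrt_mul (by positivity)]
        congr 1
        ring
      rw [a6] at a5
      have a7 : 0 < √(m : ℝ) := Real.sqrt_pos.2 hm0
      have a8 : √(m : ℝ) * √(m : ℝ) = m := Real.mul_self_sqrt hm0.le
      calc (2 / ((N + 1 : ℕ) : ℝ) * (1 / (m : ℝ))) * (μ.real (E m ∩ E (N + 1)) - μ.real (E m) * μ.real (E (N + 1)))
          ≤ (2 / ((N + 1 : ℕ) : ℝ) * (1 / (m : ℝ))) * (√(C * Real.log (N + 1 : ℕ) / ((N + 1 : ℕ) : ℝ)) * √m) :=
            mul_le_mul_of_nonneg_left a5 (by positivity)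
        _ = 2 / ((N + 1 : ℕ) : ℝ) * √(C * Real.log (N + 1 : ℕ) / ((N + 1 : ℕ) : ℝ)) * (√m / (m : ℝ)) := by ring
        _ = 2 / ((N + 1 : ℕ) : ℝ) * √(C * Real.log (N + 1 : ℕ) / ((N + 1 : ℕ) : ℝ)) * (1 / √(m : ℝ)) := by
            congr 1
            rw [div_eq_div_iff hm0.ne' a7.ne', a8, one_mul]
    refine (Finset.sum_le_sum a1).trans ?_
    rw [← Finset.mul_sum]
    have a9 := sqrt_sum N
    have a10 : √(N : ℝ) ≤ √((N + 1 : ℕ) : ℝ) := Real.sqrt_le_sqrt (by push_cast; linarith)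
    calc 2 / ((N + 1 : ℕ) : ℝ) * √(C * Real.log (N + 1 : ℕ) / ((N + 1 : ℕ) : ℝ)) * ∑ m ∈ Icc 1 N, 1 / √(m : ℝ)
        ≤ 2 / ((N + 1 : ℕ) : ℝ) * √(C * Real.log (N + 1 : ℕ) / ((N + 1 : ℕ) : ℝ)) * (2 * √((N + 1 : ℕ) : ℝ)) :=
          mul_le_mul_of_nonneg_left (by linarith) (by positivity)
      _ = 4 * (√(C * Real.log (N + 1 : ℕ) / ((N + 1 : ℕ) : ℝ)) * √((N + 1 : ℕ) : ℝ)) * (1 / ((N + 1 : ℕ) : ℝ)) := by ring
      _ = 4 * √(C * Real.log (N + 1 : ℕ)) * (1 / ((N + 1 : ℕ) : ℝ)) := by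
          rw [← Real.sqrt_mul (by positivity), div_mul_cancel₀ _ hN.ne']
  linarith

theorem var_le (hE : ∀ n, MeasurableSet (E n)) {C : ℝ} (hC : 0 ≤ C)
    (hc : ∀ m n, 1 ≤ m → m < n → |μ.real (E m ∩ E n) - μ.real (E m) * μ.real (E n)| ≤ C * ((m : ℝ) / n) * Real.log n)
    (M : ℕ) : ∀ N ≤ M, ∫ ω, ss μ E N ω ^ 2 ∂μ ≤ (4 * √(C * Real.log M) + 1) * ∑ n ∈ Icc 1 N, (1 : ℝ) / n := by
  intro N
  induction N with
  | zero => intro _; simp [ss]
  | succ N ih =>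
    intro h
    rw [Finset.sum_Icc_succ_top (by omega), mul_add]
    refine (step hE hC hc N).trans (add_le_add (ih (by omega)) ?_)
    have h1 : Real.log (N + 1 : ℕ) ≤ Real.log M := Real.log_le_log (by positivity) (by exact_mod_cast h)
    have h2 : √(C * Real.log (N + 1 : ℕ)) ≤ √(C * Real.log M) := Real.sqrt_le_sqrt (mul_le_mul_of_nonneg_left h1 hC)
    refine mul_le_mul_of_nonneg_right ?_ (by positivity)
    linarith

theorem cheb (hE : ∀ n, MeasurableSet (E n)) {C : ℝ} (hC : 0 ≤ C)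
    (hc : ∀ m n, 1 ≤ m → m < n → |μ.real (E m ∩ E n) - μ.real (E m) * μ.real (E n)| ≤ C * ((m : ℝ) / n) * Real.log n)
    {ε : ℝ} (hε : 0 < ε) : ∀ᶠ k : ℕ in atTop, μ.real {ω | ε * Real.log (nk k) ≤ |ss μ E (nk k) ω|} ≤
      (4 * (4 * √C + 1) / ε ^ 2) * (1 / (k : ℝ) ^ 2) := by
  filter_upwards [eventually_ge_atTop 2] with k hk
  have hk' : (2 : ℝ) ≤ k := by exact_mod_cast hk
  have hl2 : (1 / 2 : ℝ) ≤ Real.log 2 := by linarith [Real.log_two_gt_d9]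
  obtain ⟨L, hL⟩ : ∃ L, L = Real.log (nk k) := ⟨_, rfl⟩
  have hL4 : (k : ℝ) ^ 4 * (1 / 2) ≤ L := by
    rw [hL, log_nk]
    exact mul_le_mul_of_nonneg_left hl2 (by positivity)
  have hL1 : 1 ≤ L := by
    have : (2 : ℝ) ^ 4 ≤ (k : ℝ) ^ 4 := pow_le_pow_left₀ (by norm_num) hk' 4
    linarith
  have hsL : (k : ℝ) ^ 2 / 2 ≤ √L := by
    refine Real.le_sqrt_of_sq_le ?_
    have e1 : ((k : ℝ) ^ 2 / 2) ^ 2 = (k : ℝ) ^ 4 * (1 / 4) := by ring
    rw [e1]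
    have : (0 : ℝ) ≤ (k : ℝ) ^ 4 := by positivity
    linarith
  have hk2 : (0 : ℝ) < (k : ℝ) ^ 2 / 2 := by positivity
  have hs0 : 0 < √L := by linarith
  have hs1 : 1 ≤ √L := Real.one_le_sqrt.2 hL1
  have hss : √L * √L = L := Real.mul_self_sqrt (by linarith)
  have hset : {ω | ε * Real.log (nk k) ≤ |ss μ E (nk k) ω|} = {ω | (ε * L) ^ 2 ≤ ss μ E (nk k) ω ^ 2} := by
    ext ω
    rw [Set.mem_ofPred_eq, Set.mem_ofPred_eq, ← hL, ← sq_abs (ss μ E (nk k) ω)]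
    rw [pow_le_pow_iff_left₀ (by positivity) (abs_nonneg _) (by norm_num)]
  have hm : (ε * L) ^ 2 * μ.real {ω | (ε * L) ^ 2 ≤ ss μ E (nk k) ω ^ 2} ≤ ∫ ω, ss μ E (nk k) ω ^ 2 ∂μ := by
    refine mul_meas_ge_le_integral_of_nonneg (ae_of_all _ fun ω => sq_nonneg _) ?_ _
    have b := (ss_bm (μ := μ) hE (nk k)).mul (ss_bm (μ := μ) hE (nk k))
    have : (fun ω => ss μ E (nk k) ω ^ 2) = fun ω => ss μ E (nk k) ω * ss μ E (nk k) ω := by
      funext ω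
      rw [pow_two]
    rw [this]
    exact b.int
  have hv := var_le hE hC hc (nk k) (nk k) le_rfl
  have hh : ∑ n ∈ Icc 1 (nk k), (1 : ℝ) / n ≤ 1 + L := by
    rw [harm_eq, hL]
    exact harmonic_le_one_add_log _
  rw [← hL] at hv
  have hsC : √(C * L) = √C * √L := Real.sqrt_mul hC L
  have hC0 : 0 ≤ √C := Real.sqrt_nonneg _
  have hfin : ∫ ω, ss μ E (nk k) ω ^ 2 ∂μ ≤ 2 * (4 * √C + 1) * (L * √L) := by
    refine hv.trans ?_
    rw [hsC]
    calc (4 * (√C * √L) + 1) * ∑ n ∈ Icc 1 (nk k), (1 : ℝ) / n ≤ (4 * (√C * √L) + √L) * (2 * L) := by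
          refine mul_le_mul (by linarith) (by linarith) (Finset.sum_nonneg fun n _ => by positivity) (by positivity)
      _ = 2 * (4 * √C + 1) * (L * √L) := by ring
  rw [hset]
  have h3 : (ε * L) ^ 2 * μ.real {ω | (ε * L) ^ 2 ≤ ss μ E (nk k) ω ^ 2} ≤ 2 * (4 * √C + 1) * (L * √L) := hm.trans hfin
  have h4 : μ.real {ω | (ε * L) ^ 2 ≤ ss μ E (nk k) ω ^ 2} ≤ 2 * (4 * √C + 1) * (L * √L) / (ε * L) ^ 2 := by
    rw [le_div_iff₀ (by positivity)]
    linarith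
  refine h4.trans ?_
  have h5 : 2 * (4 * √C + 1) * (L * √L) / (ε * L) ^ 2 = 2 * (4 * √C + 1) / ε ^ 2 * (1 / √L) := by
    rw [div_mul_div_comm, mul_one, div_eq_div_iff (by positivity) (by positivity)]
    calc 2 * (4 * √C + 1) * (L * √L) * (ε ^ 2 * √L) = 2 * (4 * √C + 1) * L * ε ^ 2 * (√L * √L) := by ring
      _ = 2 * (4 * √C + 1) * (ε * L) ^ 2 := by rw [hss]; ring
  have h6 : 1 / √L ≤ 1 / ((k : ℝ) ^ 2 / 2) := one_div_le_one_div_of_le hk2 hsL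
  rw [h5]
  calc 2 * (4 * √C + 1) / ε ^ 2 * (1 / √L) ≤ 2 * (4 * √C + 1) / ε ^ 2 * (1 / ((k : ℝ) ^ 2 / 2)) :=
        mul_le_mul_of_nonneg_left h6 (by positivity)
    _ = (4 * (4 * √C + 1) / ε ^ 2) * (1 / (k : ℝ) ^ 2) := by
        have : (k : ℝ) ^ 2 ≠ 0 := by positivity
        field_simp
        ring

theorem asl0 (hE : ∀ n, MeasurableSet (E n)) {C l : ℝ} (hC : 0 ≤ C)
    (hc : ∀ m n, 1 ≤ m → m < n → |μ.real (E m ∩ E n) - μ.real (E m) * μ.real (E n)| ≤ C * ((m : ℝ) / n) * Real.log n)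
    (hl : Tendsto (fun n => μ.real (E n)) atTop (𝓝 l)) :
    ∀ᵐ ω ∂μ, Tendsto (lm fun n => (E n).indicator (fun _ => (1 : ℝ)) ω) atTop (𝓝 l) := by
  have h1 : ∀ j : ℕ, ∀ᵐ ω ∂μ, ∀ᶠ k : ℕ in atTop,
      ω ∉ {ω | (1 / ((j : ℝ) + 1)) * Real.log (nk k) ≤ |ss μ E (nk k) ω|} := by
    intro j
    have hε : (0 : ℝ) < 1 / ((j : ℝ) + 1) := by positivity
    refine Pool.Agent.Q120.GM.bc (g := fun k : ℕ => (4 * (4 * √C + 1) / (1 / ((j : ℝ) + 1)) ^ 2) * (1 / (k : ℝ) ^ 2)) ?_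
      (cheb hE hC hc hε)
    exact (Real.summable_one_div_nat_pow.2 (by norm_num)).mul_left _
  filter_upwards [ae_all_iff.2 h1] with ω hω
  refine interp (fun n => Set.indicator_nonneg (fun _ _ => zero_le_one) _) ?_
  have h2 : Tendsto (fun k => ss μ E (nk k) ω / Real.log (nk k)) atTop (𝓝 0) := by
    rw [Metric.tendsto_atTop']
    intro ε hε
    obtain ⟨j, hj⟩ := exists_nat_one_div_lt hε
    obtain ⟨k0, h0⟩ := eventually_atTop.1 ((hω j).and (eventually_ge_atTop 1))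
    refine ⟨k0, fun k hk => ?_⟩
    obtain ⟨h3, h4⟩ := h0 k hk.le
    have hL : 0 < Real.log (nk k) := by
      rw [log_nk]
      have : (0 : ℝ) < k := by exact_mod_cast h4
      have := Real.log_pos (show (1 : ℝ) < 2 by norm_num)
      positivity
    rw [not_le] at h3
    rw [Real.dist_eq, sub_zero, abs_div, abs_of_pos hL, div_lt_iff₀ hL]
    exact h3.trans_le (mul_le_mul_of_nonneg_right hj.le hL.le)
  have h3 : Tendsto (fun k => lm (fun n => μ.real (E n)) (nk k) + ss μ E (nk k) ω / Real.log (nk k)) atTop (𝓝 (l + 0)) :=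
    ((lm_of_tendsto hl).comp nk_mono.tendsto_atTop).add h2
  rw [add_zero] at h3
  refine h3.congr fun k => ?_
  unfold lm ss
  rw [← add_div, ← Finset.sum_add_distrib]
  congr 1
  refine Finset.sum_congr rfl fun n _ => ?_
  unfold yy
  ring

/-- **The almost sure law.** -/
theorem asl (hE : ∀ n, MeasurableSet (E n)) {C l : ℝ} (hC : 0 ≤ C)
    (hc : ∀ᶠ m in atTop, ∀ n, m < n → |μ.real (E m ∩ E n) - μ.real (E m) * μ.real (E n)| ≤ C * ((m : ℝ) / n) * Real.log n)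
    (hl : Tendsto (fun n => μ.real (E n)) atTop (𝓝 l)) :
    ∀ᵐ ω ∂μ, Tendsto (lm fun n => (E n).indicator (fun _ => (1 : ℝ)) ω) atTop (𝓝 l) := by
  obtain ⟨n0, h0⟩ := eventually_atTop.1 hc
  have hev : ∀ n, n0 ≤ n → (if n0 ≤ n then E n else ∅) = E n := fun n hn => if_pos hn
  have h1 := asl0 (μ := μ) (E := fun n => if n0 ≤ n then E n else ∅) (C := C) (l := l) ?_ hC ?_ ?_
  · filter_upwards [h1] with ω hω
    refine lm_squeeze fun ε hε => ⟨_, _, l, l, ?_, ?_, hω, hω, by linarith, by linarith⟩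
    · filter_upwards [eventually_ge_atTop n0] with n hn
      rw [hev n hn]
    · filter_upwards [eventually_ge_atTop n0] with n hn
      rw [hev n hn]
  · intro n
    show MeasurableSet (if n0 ≤ n then E n else ∅)
    split_ifs
    · exact hE n
    · exact MeasurableSet.empty
  · intro m n _ hmn
    show |μ.real ((if n0 ≤ m then E m else ∅) ∩ (if n0 ≤ n then E n else ∅)) -
      μ.real (if n0 ≤ m then E m else ∅) * μ.real (if n0 ≤ n then E n else ∅)| ≤ _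
    by_cases h2 : n0 ≤ m
    · rw [if_pos h2, if_pos (by omega)]
      exact h0 m h2 n hmn
    · rw [if_neg h2]
      simp only [Set.empty_inter, measureReal_empty, zero_mul, sub_zero, abs_zero]
      have : 0 ≤ Real.log n := Real.log_natCast_nonneg _
      positivity
  · refine hl.congr' ?_
    filter_upwards [eventually_ge_atTop n0] with n hn
    rw [hev n hn]

end Pool.Agent.H595.AS
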