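import Pool.Agent.H595.AS.Win

/-!
# Decorrelation of the maximal gaps at different scales
-/

set_option autoImplicit false

namespace Pool.Agent.H595.AS

open Finset MeasureTheory ProbabilityTheory Filter Pool.Agent.Q120.AD Pool.Agent.Q120.GM
open scoped Topology

variable {Ω : Type*} [MeasurableSpace Ω] {μ : Measure Ω} [IsProbabilityMeasure μ] {p : ℕ → ℝ} {A : Ω → Set ℕ}

/-- No `m ∈ I` is an element followed by `τ m` numbers outside the set. -/
def ev (A : Ω → Set ℕ) (τ : ℕ → ℕ) (I : Finset ℕ) : Set Ω := ⋂ m ∈ I, (longAt A (τ m) m)ᶜ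

omit [MeasurableSpace Ω] in
theorem mem_ev {τ : ℕ → ℕ} {I : Finset ℕ} {ω : Ω} : ω ∈ ev A τ I ↔ ∀ m ∈ I, ω ∉ longAt A (τ m) m := by
  unfold ev
  simp only [Set.mem_iInter, Set.mem_compl_iff]

theorem F_ev {τ : ℕ → ℕ} {I : Finset ℕ} {S : Set ℕ} (h : ∀ m ∈ I, ∀ j, m ≤ j → j ≤ m + τ m → j ∈ S) :
    MeasurableSet[F A S] (ev A τ I) :=
  Finset.measurableSet_biInter _ fun m hm => MeasurableSet.compl (F_long fun j h1 h2 => h m hm j h1 h2)

theorem ev_meas (hA : IsModel μ p A) (τ : ℕ → ℕ) (I : Finset ℕ) : MeasurableSet (ev A τ I) :=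
  F_le hA Set.univ _ (F_ev fun _ _ _ _ _ => Set.mem_univ _)

omit [MeasurableSpace Ω] in
theorem ev_anti {τ : ℕ → ℕ} {I J : Finset ℕ} (h : I ⊆ J) : ev A τ J ⊆ ev A τ I := fun _ hω =>
  mem_ev.2 fun m hm => mem_ev.1 hω m (h hm)

theorem ev_diff (hA : IsModel μ p A) (τ : ℕ → ℕ) (I J : Finset ℕ) :
    μ.real (ev A τ I \ ev A τ J) ≤ ∑ m ∈ J \ I, ee p (τ m) m := by
  have h1 : ev A τ I \ ev A τ J ⊆ ⋃ m ∈ J \ I, longAt A (τ m) m := by
    intro ω hω
    obtain ⟨h2, h3⟩ := hω
    rw [mem_ev] at h2 h3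
    push Not at h3
    obtain ⟨m, hm, h4⟩ := h3
    rw [Set.mem_iUnion₂]
    exact ⟨m, Finset.mem_sdiff.2 ⟨hm, fun h5 => h2 m h5 h4⟩, h4⟩
  refine (measureReal_mono h1 (measure_ne_top μ _)).trans ?_
  refine (measureReal_biUnion_finset_le _ _).trans (le_of_eq ?_)
  exact Finset.sum_congr rfl fun m _ => real_long hA _ _

theorem cov_drop (hA : IsModel μ p A) {S T : Set ℕ} (hST : Disjoint S T) {E G G' : Set Ω}
    (hE : MeasurableSet[F A S] E) (hG' : MeasurableSet[F A T] G') (hsub : G ⊆ G') {δ : ℝ} (hδ : μ.real (G' \ G) ≤ δ) :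
    |μ.real (E ∩ G) - μ.real E * μ.real G| ≤ δ := by
  have h1 := indep_real hA hST hE hG'
  have h2 : μ.real (E ∩ G) ≤ μ.real (E ∩ G') := measureReal_mono (Set.inter_subset_inter_right _ hsub) (measure_ne_top μ _)
  have h3 : μ.real (E ∩ G') ≤ μ.real (E ∩ G) + μ.real (G' \ G) := by
    refine (measureReal_mono (s₂ := (E ∩ G) ∪ (G' \ G)) ?_ (measure_ne_top μ _)).trans (measureReal_union_le _ _)
    rintro ω ⟨h4, h5⟩
    by_cases h6 : ω ∈ G
    · exact Or.inl ⟨h4, h6⟩
    · exact Or.inr ⟨h5, h6⟩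
  have h4 : μ.real G' ≤ μ.real G + μ.real (G' \ G) := by
    refine (measureReal_mono (s₂ := G ∪ (G' \ G)) ?_ (measure_ne_top μ _)).trans (measureReal_union_le _ _)
    intro ω h5
    by_cases h6 : ω ∈ G
    · exact Or.inl h6
    · exact Or.inr ⟨h5, h6⟩
  have h5 : μ.real G ≤ μ.real G' := measureReal_mono hsub (measure_ne_top μ _)
  have h6 : μ.real E ≤ 1 := measureReal_le_one
  have h7 : 0 ≤ μ.real E := measureReal_nonneg
  have h8 : 0 ≤ μ.real G := measureReal_nonneg
  rw [abs_le]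
  constructor <;> nlinarith

theorem dec (hA : IsModel μ p A) {τ : ℕ → ℕ → ℕ} {I : ℕ → Finset ℕ} (hI : ∀ n, I n ⊆ range (n + 1)) {C : ℝ} (hC : 0 ≤ C)
    (h1 : ∀ᶠ n : ℕ in atTop, ∀ j ≤ n, ee p (τ n j) j ≤ C * Real.log n / n)
    (h2 : ∀ᶠ n : ℕ in atTop, ∀ j ≤ n, τ n j < n) : ∀ᶠ m : ℕ in atTop, ∀ n, m < n →
      |μ.real (ev A (τ m) (I m) ∩ ev A (τ n) (I n)) - μ.real (ev A (τ m) (I m)) * μ.real (ev A (τ n) (I n))| ≤
        (2 * C) * ((m : ℝ) / n) * Real.log n := by
  obtain ⟨n1, h3⟩ := eventually_atTop.1 h1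
  filter_upwards [h2, eventually_ge_atTop n1] with m h4 h5 n hmn
  have h6 := h3 n (by omega)
  have hST : Disjoint (Set.Iio (2 * m)) (Set.Ici (2 * m)) := by
    rw [Set.disjoint_left]
    intro x hx hx'
    rw [Set.mem_Iio] at hx
    rw [Set.mem_Ici] at hx'
    omega
  refine cov_drop hA hST (G' := ev A (τ n) ((I n).filter fun j => 2 * m ≤ j)) (F_ev fun j hj i hi1 hi2 => ?_)
    (F_ev fun j hj i hi1 hi2 => ?_) (ev_anti (filter_subset _ _)) ?_
  · have h7 := mem_range.1 (hI m hj)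
    have := h4 j (by omega)
    rw [Set.mem_Iio]
    omega
  · rw [mem_filter] at hj
    rw [Set.mem_Ici]
    omega
  · refine (ev_diff hA _ _ _).trans ?_
    have hsub : I n \ (I n).filter (fun j => 2 * m ≤ j) ⊆ range (2 * m) := by
      intro j hj
      rw [Finset.mem_sdiff, mem_filter] at hj
      rw [mem_range]
      by_contra hcon
      exact hj.2 ⟨hj.1, by omega⟩
    have hle : ∀ j ∈ I n \ (I n).filter (fun j => 2 * m ≤ j), ee p (τ n j) j ≤ C * Real.log n / n := by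
      intro j hj
      have := mem_range.1 (hI n (Finset.mem_sdiff.1 hj).1)
      exact h6 j (by omega)
    refine (Finset.sum_le_card_nsmul _ _ _ hle).trans ?_
    rw [nsmul_eq_mul]
    have hcard : ((I n \ (I n).filter (fun j => 2 * m ≤ j)).card : ℝ) ≤ 2 * m := by
      have := card_le_card hsub
      rw [card_range] at this
      exact_mod_cast this
    have hl : 0 ≤ Real.log n := Real.log_natCast_nonneg n
    calc ((I n \ (I n).filter (fun j => 2 * m ≤ j)).card : ℝ) * (C * Real.log n / n)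
        ≤ 2 * m * (C * Real.log n / n) := mul_le_mul_of_nonneg_right hcard (by positivity)
      _ = (2 * C) * ((m : ℝ) / n) * Real.log n := by ring

/-- The almost sure law for events of this form. -/
theorem asl_ev (hA : IsModel μ p A) {τ : ℕ → ℕ → ℕ} {I : ℕ → Finset ℕ} (hI : ∀ n, I n ⊆ range (n + 1)) {C l : ℝ} (hC : 0 ≤ C)
    (h1 : ∀ᶠ n : ℕ in atTop, ∀ j ≤ n, ee p (τ n j) j ≤ C * Real.log n / n)
    (h2 : ∀ᶠ n : ℕ in atTop, ∀ j ≤ n, τ n j < n)
    (hl : Tendsto (fun n => μ.real (ev A (τ n) (I n))) atTop (𝓝 l)) :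
    ∀ᵐ ω ∂μ, Tendsto (lm fun n => (ev A (τ n) (I n)).indicator (fun _ => (1 : ℝ)) ω) atTop (𝓝 l) :=
  asl (E := fun n => ev A (τ n) (I n)) (fun n => ev_meas hA _ _) (by positivity : 0 ≤ 2 * C) (dec hA hI hC h1 h2) hl

variable {Q : ℕ}

theorem TT_le (Q : ℕ) (u : ℝ) : ∀ᶠ x : ℕ in atTop, ((TT Q u x : ℕ) : ℝ) ≤ (1 + |cen Q u|) * Real.log x ^ 2 := by
  have hl1 : ∀ᶠ x : ℕ in atTop, 0 ≤ Real.log (Real.log x) := (Real.tendsto_log_atTop.comp hl).eventually_ge_atTop 0
  filter_upwards [hl1, hl.eventually_ge_atTop 1] with x g3 g4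
  obtain ⟨c, hc⟩ : ∃ c, c = |cen Q u| := ⟨_, rfl⟩
  have hc0 : 0 ≤ c := by rw [hc]; exact abs_nonneg _
  have hc1 : cen Q u ≤ c := by rw [hc]; exact le_abs_self _
  obtain ⟨L, hLd⟩ : ∃ L, L = Real.log (x : ℝ) := ⟨_, rfl⟩
  have hT : TT Q u x = ⌊L * (L - Real.log L + cen Q u)⌋₊ := by unfold TT; rw [hLd]
  rw [← hLd] at g3 g4 ⊢
  rw [← hc]
  have hL0 : 0 < L := by linarith
  rw [hT]
  rcases le_total 0 (L * (L - Real.log L + cen Q u)) with h | h
  · refine (Nat.floor_le h).trans ?_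
    have e2 : L - Real.log L + cen Q u ≤ (1 + c) * L := by nlinarith
    calc L * (L - Real.log L + cen Q u) ≤ L * ((1 + c) * L) := mul_le_mul_of_nonneg_left e2 hL0.le
      _ = (1 + c) * L ^ 2 := by ring
  · rw [Nat.floor_of_nonpos h]
    simp only [Nat.cast_zero]
    positivity

theorem TT_small (Q : ℕ) (u : ℝ) {D s : ℝ} (hD : 0 ≤ D) (hs : 0 < s) :
    ∀ᶠ x : ℕ in atTop, ((TT Q u x : ℕ) : ℝ) * (D * Real.log x / x) ≤ s := by
  have hTx : ∀ᶠ x : ℕ in atTop, ((1 + |cen Q u|) * D / s) * Real.log x ^ 3 ≤ (x : ℝ) ^ (1 : ℝ) := ev_power _ 3 one_pos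
  filter_upwards [TT_le Q u, hTx, hl.eventually_ge_atTop 1, eventually_ge_atTop 2] with x g1 g2 g4 g5
  rw [Real.rpow_one] at g2
  have hx0 : (0 : ℝ) < x := by exact_mod_cast (by omega : 0 < x)
  have hL0 : 0 < Real.log x := by linarith
  calc ((TT Q u x : ℕ) : ℝ) * (D * Real.log x / x) ≤ (1 + |cen Q u|) * Real.log x ^ 2 * (D * Real.log x / x) :=
        mul_le_mul_of_nonneg_right g1 (by positivity)
    _ = ((1 + |cen Q u|) * D / s * Real.log x ^ 3) / x * s := by field_simp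
    _ ≤ 1 * s := by
        refine mul_le_mul_of_nonneg_right ?_ hs.le
        rw [div_le_one hx0]
        exact g2
    _ = s := one_mul s

theorem TT_lt (Q : ℕ) (u : ℝ) : ∀ᶠ x : ℕ in atTop, TT Q u x < x := by
  filter_upwards [TT_small Q u zero_le_one (show (0 : ℝ) < 1 / 2 by norm_num), hl.eventually_ge_atTop 1,
    eventually_ge_atTop 2] with x g1 g2 g3
  have hx0 : (0 : ℝ) < x := by exact_mod_cast (by omega : 0 < x)
  rw [one_mul, ← mul_div_assoc, div_le_iff₀ hx0] at g1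
  have h1 : ((TT Q u x : ℕ) : ℝ) * 1 ≤ ((TT Q u x : ℕ) : ℝ) * Real.log x := mul_le_mul_of_nonneg_left g2 (Nat.cast_nonneg _)
  have h2 : ((TT Q u x : ℕ) : ℝ) < x := by linarith
  exact_mod_cast h2

/-- Two thresholds. -/
noncomputable def tau2 (Q : ℕ) (z : ℕ → ℕ) (v w : ℝ) (n j : ℕ) : ℕ := if j ≤ z n then TT Q v n else TT Q w n

omit [MeasurableSpace Ω] in
theorem ev_tau2 (z : ℕ → ℕ) (hz : ∀ x, z x ≤ x) (v w : ℝ) (n : ℕ) :
    ev A (tau2 Q z v w n) (range (n + 1)) = noLong A (TT Q v n) (z n + 1) ∩ ev A (fun _ => TT Q w n) (Ioc (z n) n) := by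
  have hzn := hz n
  ext ω
  rw [Set.mem_inter_iff, mem_ev, mem_ev]
  unfold noLong
  simp only [Set.mem_iInter, Set.mem_compl_iff, mem_range, mem_Ioc]
  constructor
  · intro h
    refine ⟨fun m hm => ?_, fun m hm => ?_⟩
    · have := h m (by omega)
      unfold tau2 at this
      rwa [if_pos (by omega)] at this
    · have := h m (by omega)
      unfold tau2 at this
      rwa [if_neg (by omega)] at this
  · rintro ⟨h1, h2⟩ m hm
    unfold tau2
    split_ifs with h3
    · exact h1 m (by omega)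
    · exact h2 m (by omega)

theorem prob2 (hA : IsModel μ (level Q) A) (hQ : 1 ≤ Q) {z : ℕ → ℕ} (hz : ∀ x, z x ≤ x) {θ : ℝ}
    (hzl : Tendsto (fun x : ℕ => (z x : ℝ) / x) atTop (𝓝 θ)) (v w : ℝ) :
    Tendsto (fun n => μ.real (ev A (tau2 Q z v w n) (range (n + 1)))) atTop
      (𝓝 (Real.exp (-(θ ^ 2 * Real.exp (-v))) * Real.exp (-((1 - θ ^ 2) * Real.exp (-w))))) := by
  obtain ⟨C, hC, hcr⟩ := crude hQ w
  -- asymptotic independence
  have key : ∀ v : ℝ, Tendsto (fun n => μ.real (ev A (tau2 Q z v w n) (range (n + 1))) -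
      μ.real (noLong A (TT Q v n) (z n + 1)) * μ.real (ev A (fun _ => TT Q w n) (Ioc (z n) n))) atTop (𝓝 0) := by
    intro v
    rw [Metric.tendsto_nhds]
    intro s hs
    filter_upwards [TT_small Q v hC.le (half_pos hs), hcr] with n g1 g2
    rw [Real.dist_eq, sub_zero]
    refine lt_of_le_of_lt ?_ (half_lt_self hs)
    rw [ev_tau2 z hz]
    have hzn := hz n
    have hST : Disjoint (Set.Iio (z n + 1 + TT Q v n)) (Set.Ici (z n + 1 + TT Q v n)) := by
      rw [Set.disjoint_left]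
      intro x hx hx'
      rw [Set.mem_Iio] at hx
      rw [Set.mem_Ici] at hx'
      omega
    refine cov_drop hA hST (G' := ev A (fun _ => TT Q w n) ((Ioc (z n) n).filter fun j => z n + 1 + TT Q v n ≤ j))
      (F_noLong fun j hj => hj) (F_ev fun j hj i hi1 hi2 => ?_) (ev_anti (filter_subset _ _)) ?_
    · rw [mem_filter] at hj
      rw [Set.mem_Ici]
      omega
    · refine (ev_diff hA _ _ _).trans ?_
      have hsub : Ioc (z n) n \ (Ioc (z n) n).filter (fun j => z n + 1 + TT Q v n ≤ j) ⊆ Ico (z n + 1) (z n + 1 + TT Q v n) := by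
        intro j hj
        rw [Finset.mem_sdiff, mem_filter] at hj
        rw [mem_Ico]
        have h1 := mem_Ioc.1 hj.1
        refine ⟨by omega, ?_⟩
        by_contra hcon
        exact hj.2 ⟨hj.1, by omega⟩
      have hle : ∀ j ∈ Ioc (z n) n \ (Ioc (z n) n).filter (fun j => z n + 1 + TT Q v n ≤ j),
          ee (level Q) (TT Q w n) j ≤ C * Real.log n / n := by
        intro j hj
        have := mem_Ioc.1 (Finset.mem_sdiff.1 hj).1
        exact g2 j (by omega)
      refine (Finset.sum_le_card_nsmul _ _ _ hle).trans ?_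
      rw [nsmul_eq_mul]
      have hcard : ((Ioc (z n) n \ (Ioc (z n) n).filter (fun j => z n + 1 + TT Q v n ≤ j)).card : ℝ) ≤ TT Q v n := by
        have := card_le_card hsub
        rw [Nat.card_Ico, Nat.add_sub_cancel_left] at this
        exact_mod_cast this
      have hl : 0 ≤ Real.log n := Real.log_natCast_nonneg n
      exact (mul_le_mul_of_nonneg_right hcard (by positivity)).trans g1
  -- the window
  have h0 : Tendsto (fun n => μ.real (noLong A (TT Q w n) (z n + 1))) atTop (𝓝 (Real.exp (-(θ ^ 2 * Real.exp (-w))))) :=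
    gumbel_z hA hQ hz hzl w
  have h1 : Tendsto (fun n => μ.real (noLong A (TT Q w n) (z n + 1)) * μ.real (ev A (fun _ => TT Q w n) (Ioc (z n) n)))
      atTop (𝓝 (Real.exp (-Real.exp (-w)))) := by
    have h2 := (gumbel hA hQ w).sub (key w)
    rw [sub_zero] at h2
    refine h2.congr fun n => ?_
    have h3 : ev A (tau2 Q z w w n) (range (n + 1)) = noLong A (TT Q w n) (n + 1) := by
      ext ω
      rw [mem_ev]
      unfold noLong tau2
      simp only [Set.mem_iInter, Set.mem_compl_iff, mem_range, ite_self]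
    rw [h3]
    ring
  have h2 : Tendsto (fun n => μ.real (ev A (fun _ => TT Q w n) (Ioc (z n) n))) atTop
      (𝓝 (Real.exp (-((1 - θ ^ 2) * Real.exp (-w))))) := by
    have h3 := h1.div h0 (Real.exp_pos _).ne'
    have e1 : Real.exp (-Real.exp (-w)) / Real.exp (-(θ ^ 2 * Real.exp (-w))) = Real.exp (-((1 - θ ^ 2) * Real.exp (-w))) := by
      rw [← Real.exp_sub]
      congr 1
      ring
    rw [e1] at h3
    refine h3.congr' ?_
    filter_upwards [h0.eventually (eventually_gt_nhds (Real.exp_pos _))] with n hn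
    exact mul_div_cancel_left₀ _ hn.ne'
  have h3 := (key v).add ((gumbel_z hA hQ hz hzl v).mul h2)
  rw [zero_add] at h3
  refine h3.congr fun n => ?_
  ring

/-- The almost sure joint law. -/
theorem asl2 (hA : IsModel μ (level Q) A) (hQ : 1 ≤ Q) {z : ℕ → ℕ} (hz : ∀ x, z x ≤ x) {θ : ℝ}
    (hzl : Tendsto (fun x : ℕ => (z x : ℝ) / x) atTop (𝓝 θ)) (v w : ℝ) :
    ∀ᵐ ω ∂μ, Tendsto (lm fun n => (ev A (tau2 Q z v w n) (range (n + 1))).indicator (fun _ => (1 : ℝ)) ω) atTop
      (𝓝 (Real.exp (-(θ ^ 2 * Real.exp (-v))) * Real.exp (-((1 - θ ^ 2) * Real.exp (-w))))) := by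
  obtain ⟨C₁, hC₁, h1⟩ := crude hQ v
  obtain ⟨C₂, hC₂, h2⟩ := crude hQ w
  refine asl_ev hA (I := fun n => range (n + 1)) (fun _ => subset_rfl) (C := C₁ + C₂) (by positivity) ?_ ?_ (prob2 hA hQ hz hzl v w)
  · filter_upwards [h1, h2, eventually_ge_atTop 1] with n g1 g2 g3 j hj
    have hn : (0 : ℝ) < n := by exact_mod_cast g3
    have hl : 0 ≤ Real.log n := Real.log_natCast_nonneg n
    unfold tau2
    split_ifs
    · refine (g1 j hj).trans (div_le_div_of_nonneg_right ?_ hn.le)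
      exact mul_le_mul_of_nonneg_right (by linarith) hl
    · refine (g2 j hj).trans (div_le_div_of_nonneg_right ?_ hn.le)
      exact mul_le_mul_of_nonneg_right (by linarith) hl
  · filter_upwards [TT_lt Q v, TT_lt Q w] with n g1 g2 j _
    unfold tau2
    split_ifs
    · exact g1
    · exact g2

/-- A bound for the length of all gaps up to `n`. -/
noncomputable def RR (n : ℕ) : ℕ := ⌊3 * Real.log n ^ 2⌋₊

theorem RR_small {D s : ℝ} (hD : 0 ≤ D) (hs : 0 < s) : ∀ᶠ x : ℕ in atTop, (RR x : ℝ) * (D * Real.log x / x) ≤ s := by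
  have hTx : ∀ᶠ x : ℕ in atTop, (3 * D / s) * Real.log x ^ 3 ≤ (x : ℝ) ^ (1 : ℝ) := ev_power _ 3 one_pos
  filter_upwards [hTx, hl.eventually_ge_atTop 1, eventually_ge_atTop 2] with x g2 g4 g5
  rw [Real.rpow_one] at g2
  have hx0 : (0 : ℝ) < x := by exact_mod_cast (by omega : 0 < x)
  have hL0 : 0 < Real.log x := by linarith
  have g1 : (RR x : ℝ) ≤ 3 * Real.log x ^ 2 := Nat.floor_le (by positivity)
  calc (RR x : ℝ) * (D * Real.log x / x) ≤ 3 * Real.log x ^ 2 * (D * Real.log x / x) :=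
        mul_le_mul_of_nonneg_right g1 (by positivity)
    _ = (3 * D / s * Real.log x ^ 3) / x * s := by field_simp
    _ ≤ 1 * s := by
        refine mul_le_mul_of_nonneg_right ?_ hs.le
        rw [div_le_one hx0]
        exact g2
    _ = s := one_mul s

/-- Long gaps rarely start near `n`. -/
theorem asl3 (hA : IsModel μ (level Q) A) (hQ : 1 ≤ Q) (v : ℝ) :
    ∀ᵐ ω ∂μ, Tendsto (lm fun n => (ev A (fun _ => TT Q v n) (Ioc (n - RR n) n)).indicator (fun _ => (1 : ℝ)) ω) atTop (𝓝 1) := by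
  obtain ⟨C, hC, h1⟩ := crude hQ v
  refine asl_ev hA (τ := fun n _ => TT Q v n) (I := fun n => Ioc (n - RR n) n) (fun n j hj => ?_) hC.le ?_ ?_ ?_
  · rw [mem_Ioc] at hj
    rw [mem_range]
    omega
  · filter_upwards [h1] with n g1 j hj using g1 j hj
  · filter_upwards [TT_lt Q v] with n g1 j _ using g1
  · rw [tendsto_order]
    constructor
    · intro a ha
      filter_upwards [h1, RR_small hC.le (half_pos (show 0 < 1 - a by linarith))] with n g1 g2
      have h2 := ev_diff hA (fun _ => TT Q v n) ∅ (Ioc (n - RR n) n)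
      have h3 : ev A (fun _ => TT Q v n) ∅ = Set.univ := by
        ext ω
        rw [mem_ev]
        simp
      rw [h3, sdiff_empty] at h2
      have h4 : ∑ m ∈ Ioc (n - RR n) n, ee (level Q) (TT Q v n) m ≤ (1 - a) / 2 := by
        have hle : ∀ j ∈ Ioc (n - RR n) n, ee (level Q) (TT Q v n) j ≤ C * Real.log n / n := by
          intro j hj
          rw [mem_Ioc] at hj
          exact g1 j hj.2
        refine (Finset.sum_le_card_nsmul _ _ _ hle).trans ?_
        rw [nsmul_eq_mul, Nat.card_Ioc]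
        have hl : 0 ≤ Real.log n := Real.log_natCast_nonneg n
        refine (mul_le_mul_of_nonneg_right ?_ (by positivity)).trans g2
        exact_mod_cast (by omega : n - (n - RR n) ≤ RR n)
      have h5 : (1 : ℝ) ≤ μ.real (ev A (fun _ => TT Q v n) (Ioc (n - RR n) n)) +
          μ.real (Set.univ \ ev A (fun _ => TT Q v n) (Ioc (n - RR n) n)) := by
        rw [← probReal_univ (μ := μ)]
        refine (measureReal_mono (s₂ := ev A (fun _ => TT Q v n) (Ioc (n - RR n) n) ∪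
          (Set.univ \ ev A (fun _ => TT Q v n) (Ioc (n - RR n) n))) ?_ (measure_ne_top μ _)).trans (measureReal_union_le _ _)
        intro ω _
        by_cases h6 : ω ∈ ev A (fun _ => TT Q v n) (Ioc (n - RR n) n)
        · exact Or.inl h6
        · exact Or.inr ⟨Set.mem_univ _, h6⟩
      linarith
    · intro b hb
      exact Eventually.of_forall fun n => measureReal_le_one.trans_lt hb

end Pool.Agent.H595.AS
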