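import Pool.Agent.H595.AS.Gap

/-!
# Size and position of the largest gap: the law for one set
-/

set_option autoImplicit false

namespace Pool.Agent.H595.AS

open Finset MeasureTheory ProbabilityTheory Filter Pool.Agent.Q120.AD Pool.Agent.Q120.GM
open scoped Topology

variable {S : Set ℕ} {Q : ℕ}

/-- The grid of parameters. -/
noncomputable def vv (u ρ : ℝ) (i : ℕ) : ℝ := -Real.log (Real.exp (-u) + i * ρ)

theorem exp_vv {u ρ : ℝ} (hρ : 0 ≤ ρ) (i : ℕ) : Real.exp (-vv u ρ i) = Real.exp (-u) + i * ρ := by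
  unfold vv
  rw [neg_neg, Real.exp_log]
  have := Real.exp_pos (-u)
  positivity

theorem vv_zero (u ρ : ℝ) : vv u ρ 0 = u := by
  unfold vv
  rw [Nat.cast_zero, zero_mul, add_zero, Real.log_exp, neg_neg]

theorem vv_anti {u ρ : ℝ} (hρ : 0 ≤ ρ) : Antitone (vv u ρ) := by
  intro i j hij
  unfold vv
  have h1 := Real.exp_pos (-u)
  have h2 : (i : ℝ) ≤ j := by exact_mod_cast hij
  have h3 : Real.log (Real.exp (-u) + i * ρ) ≤ Real.log (Real.exp (-u) + j * ρ) :=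
    Real.log_le_log (by positivity) (by nlinarith)
  linarith

theorem TT_mono {u v : ℝ} (h : u ≤ v) (x : ℕ) : TT Q u x ≤ TT Q v x := by
  unfold TT cen
  refine Nat.floor_le_floor (mul_le_mul_of_nonneg_left (by linarith) (Real.log_natCast_nonneg x))

/-- The limit. -/
noncomputable def DD (θ a b : ℝ) : ℝ := Real.exp (-(θ ^ 2 * a)) * Real.exp (-((1 - θ ^ 2) * b))

theorem DD_diag (θ a : ℝ) : DD θ a a = Real.exp (-a) := by
  unfold DD
  rw [← Real.exp_add]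
  congr 1
  ring

/-- The cuts. -/
noncomputable def zp (θ : ℝ) (n : ℕ) : ℕ := ⌊θ * n⌋₊

noncomputable def zm (θ : ℝ) (n : ℕ) : ℕ := ⌊θ * n⌋₊ - RR n

theorem zp_le {θ : ℝ} (h1 : θ ≤ 1) (n : ℕ) : zp θ n ≤ n := by
  unfold zp
  refine (Nat.floor_le_floor (show θ * n ≤ (n : ℝ) by nlinarith [Nat.cast_nonneg (α := ℝ) n])).trans (le_of_eq (Nat.floor_natCast n))

theorem zm_le {θ : ℝ} (h1 : θ ≤ 1) (n : ℕ) : zm θ n ≤ n := (Nat.sub_le _ _).trans (zp_le h1 n)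

theorem zp_lim {θ : ℝ} (h0 : 0 ≤ θ) : Tendsto (fun n : ℕ => (zp θ n : ℝ) / n) atTop (𝓝 θ) :=
  (tendsto_nat_floor_mul_div_atTop h0).comp tendsto_natCast_atTop_atTop

theorem RR_div : Tendsto (fun n : ℕ => (RR n : ℝ) / n) atTop (𝓝 0) := by
  rw [Metric.tendsto_nhds]
  intro s hs
  filter_upwards [RR_small zero_le_one (half_pos hs), hl.eventually_ge_atTop 1] with n g1 g2
  rw [Real.dist_eq, sub_zero, abs_of_nonneg (by positivity)]
  have h1 : (RR n : ℝ) / n ≤ (RR n : ℝ) * (1 * Real.log n / n) := by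
    rw [one_mul, ← mul_div_assoc]
    exact div_le_div_of_nonneg_right (le_mul_of_one_le_right (Nat.cast_nonneg _) g2) (Nat.cast_nonneg _)
  linarith

theorem zm_lim {θ : ℝ} (h0 : 0 ≤ θ) : Tendsto (fun n : ℕ => (zm θ n : ℝ) / n) atTop (𝓝 θ) := by
  have h1 := (zp_lim h0).sub RR_div
  rw [sub_zero] at h1
  refine tendsto_of_tendsto_of_tendsto_of_le_of_le h1 (zp_lim h0) (fun n => ?_) (fun n => ?_)
  · show (zp θ n : ℝ) / n - (RR n : ℝ) / n ≤ (zm θ n : ℝ) / n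
    rw [← sub_div]
    refine div_le_div_of_nonneg_right ?_ (Nat.cast_nonneg _)
    have : zp θ n ≤ zm θ n + RR n := by unfold zp zm; omega
    have : (zp θ n : ℝ) ≤ zm θ n + RR n := by exact_mod_cast this
    linarith
  · show (zm θ n : ℝ) / n ≤ (zp θ n : ℝ) / n
    refine div_le_div_of_nonneg_right ?_ (Nat.cast_nonneg _)
    exact_mod_cast (by unfold zp zm; omega : zm θ n ≤ zp θ n)

/-- One cell, lower bound. -/
theorem cell_lower {p e ρ : ℝ} (hp0 : 0 ≤ p) (x : ℝ) :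
    p * Real.exp (-ρ) * (Real.exp (-(e + x)) - Real.exp (-(e + (x + ρ)))) ≤
      Real.exp (-(p * (e + x))) * Real.exp (-((1 - p) * (e + (x + ρ)))) - Real.exp (-(e + (x + ρ))) := by
  obtain ⟨X, hX⟩ : ∃ X, X = Real.exp (-(e + (x + ρ))) := ⟨_, rfl⟩
  have hX0 : 0 < X := by rw [hX]; exact Real.exp_pos _
  have e1 : Real.exp (-(p * (e + x))) * Real.exp (-((1 - p) * (e + (x + ρ)))) = X * Real.exp (p * ρ) := by
    rw [hX, ← Real.exp_add, ← Real.exp_add]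
    congr 1
    ring
  have e2 : Real.exp (-(e + x)) = X * Real.exp ρ := by
    rw [hX, ← Real.exp_add]
    congr 1
    ring
  rw [e1, e2, ← hX]
  have h1 : p * ρ + 1 ≤ Real.exp (p * ρ) := Real.add_one_le_exp _
  have h2 : 1 - ρ ≤ Real.exp (-ρ) := by linarith [Real.add_one_le_exp (-ρ)]
  have h3 : Real.exp (-ρ) * Real.exp ρ = 1 := by rw [← Real.exp_add]; simp
  calc p * Real.exp (-ρ) * (X * Real.exp ρ - X) = p * X * (Real.exp (-ρ) * Real.exp ρ - Real.exp (-ρ)) := by ring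
    _ = p * X * (1 - Real.exp (-ρ)) := by rw [h3]
    _ ≤ p * X * ρ := mul_le_mul_of_nonneg_left (by linarith) (by positivity)
    _ = X * (p * ρ) := by ring
    _ ≤ X * (Real.exp (p * ρ) - 1) := mul_le_mul_of_nonneg_left (by linarith) hX0.le
    _ = X * Real.exp (p * ρ) - X := by ring

/-- One cell, upper bound. -/
theorem cell_upper {p e ρ : ℝ} (hp0 : 0 ≤ p) (_hρ : 0 ≤ ρ) (x : ℝ) :
    Real.exp (-(e + x)) - Real.exp (-(p * (e + (x + ρ)))) * Real.exp (-((1 - p) * (e + x))) ≤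
      p * (1 + ρ) * (Real.exp (-(e + x)) - Real.exp (-(e + (x + ρ)))) := by
  obtain ⟨Y, hY⟩ : ∃ Y, Y = Real.exp (-(e + x)) := ⟨_, rfl⟩
  have hY0 : 0 < Y := by rw [hY]; exact Real.exp_pos _
  have e1 : Real.exp (-(p * (e + (x + ρ)))) * Real.exp (-((1 - p) * (e + x))) = Y * Real.exp (-(p * ρ)) := by
    rw [hY, ← Real.exp_add, ← Real.exp_add]
    congr 1
    ring
  have e2 : Real.exp (-(e + (x + ρ))) = Y * Real.exp (-ρ) := by
    rw [hY, ← Real.exp_add]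
    congr 1
    ring
  rw [e1, e2, ← hY]
  have h1 : 1 - p * ρ ≤ Real.exp (-(p * ρ)) := by linarith [Real.add_one_le_exp (-(p * ρ))]
  have h2 : (1 + ρ) * Real.exp (-ρ) ≤ 1 := by
    have h3 : ρ + 1 ≤ Real.exp ρ := Real.add_one_le_exp ρ
    have h4 : Real.exp (-ρ) * Real.exp ρ = 1 := by rw [← Real.exp_add]; simp
    have h5 := mul_le_mul_of_nonneg_left h3 (Real.exp_pos (-ρ)).le
    linarith
  calc Y - Y * Real.exp (-(p * ρ)) = Y * (1 - Real.exp (-(p * ρ))) := by ring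
    _ ≤ Y * (p * ρ) := mul_le_mul_of_nonneg_left (by linarith) hY0.le
    _ = p * Y * ((1 + ρ) - 1) := by ring
    _ ≤ p * Y * ((1 + ρ) - (1 + ρ) * Real.exp (-ρ)) := mul_le_mul_of_nonneg_left (by linarith) (by positivity)
    _ = p * (1 + ρ) * (Y - Y * Real.exp (-ρ)) := by ring

theorem tail_small {e : ℝ} (he : 0 ≤ e) (j : ℕ) :
    Real.exp (-(e + ((j + 1) ^ 2 : ℕ) * (1 / ((j : ℝ) + 1)))) ≤ 1 / ((j : ℝ) + 1) := by
  have hj : (0 : ℝ) < (j : ℝ) + 1 := by positivity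
  have e1 : (((j + 1) ^ 2 : ℕ) : ℝ) * (1 / ((j : ℝ) + 1)) = (j : ℝ) + 1 := by
    push_cast
    field_simp
  rw [e1, Real.exp_neg, one_div]
  refine inv_anti₀ hj ?_
  have := Real.add_one_le_exp (e + ((j : ℝ) + 1))
  linarith

/-- **The law for one set.** -/
theorem det (hinf : ∀ N : ℕ, ∃ n, N < n ∧ n ∈ S)
    (hR : ∀ᶠ x : ℕ in atTop, ∀ a b, IsGap S a b → a ≤ x → b - a ≤ RR x) {θ u : ℝ} (h0 : 0 ≤ θ) (h1 : θ ≤ 1)
    (hp : ∀ j i i' : ℕ, Tendsto (lm fun n => ind (P2 S (zp θ n) (TT Q (vv u (1 / ((j : ℝ) + 1)) i) n)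
      (TT Q (vv u (1 / ((j : ℝ) + 1)) i') n) n)) atTop
      (𝓝 (DD θ (Real.exp (-u) + i * (1 / ((j : ℝ) + 1))) (Real.exp (-u) + i' * (1 / ((j : ℝ) + 1))))))
    (hm : ∀ j i i' : ℕ, Tendsto (lm fun n => ind (P2 S (zm θ n) (TT Q (vv u (1 / ((j : ℝ) + 1)) i) n)
      (TT Q (vv u (1 / ((j : ℝ) + 1)) i') n) n)) atTop
      (𝓝 (DD θ (Real.exp (-u) + i * (1 / ((j : ℝ) + 1))) (Real.exp (-u) + i' * (1 / ((j : ℝ) + 1))))))
    (h3 : ∀ j i : ℕ, Tendsto (lm fun n => ind (∀ m ∈ Ioc (n - RR n) n, ¬ LG S (TT Q (vv u (1 / ((j : ℝ) + 1)) i) n) m)) atTop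
      (𝓝 1)) :
    Tendsto (lm fun n => ind (G S (θ * n) = G S n ∧ G S n ≤ TT Q u n)) atTop (𝓝 (θ ^ 2 * Real.exp (-Real.exp (-u)))) := by
  have hθ2 : θ ^ 2 ≤ 1 := by nlinarith
  have hRx : ∀ᶠ x : ℕ in atTop, RR x ≤ x := by
    filter_upwards [RR_div.eventually (eventually_le_nhds (show (0 : ℝ) < 1 by norm_num)), eventually_ge_atTop 1] with x g1 g2
    have hx : (0 : ℝ) < x := by exact_mod_cast g2
    rw [div_le_one hx] at g1
    exact_mod_cast g1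
  refine lm_squeeze fun ε hε => ?_
  obtain ⟨j, hj⟩ := exists_nat_one_div_lt (half_pos hε)
  obtain ⟨ρ, hρ⟩ : ∃ ρ, ρ = 1 / ((j : ℝ) + 1) := ⟨_, rfl⟩
  have hρ0 : 0 ≤ ρ := by rw [hρ]; positivity
  have hρe : ρ < ε / 2 := by rw [hρ]; exact hj
  obtain ⟨K, hK⟩ : ∃ K, K = (j + 1) ^ 2 := ⟨_, rfl⟩
  obtain ⟨e, he⟩ : ∃ e, e = Real.exp (-u) := ⟨_, rfl⟩
  have he0 : 0 < e := by rw [he]; exact Real.exp_pos _
  have hF0 : Real.exp (-e) ≤ 1 := by rw [Real.exp_le_one_iff]; linarith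
  have hF0' := Real.exp_pos (-e)
  have htail : Real.exp (-(e + K * ρ)) ≤ ρ := by rw [hK, hρ]; exact tail_small he0.le j
  have htail' := Real.exp_pos (-(e + K * ρ))
  have hanti : ∀ n : ℕ, Antitone fun i => TT Q (vv u ρ i) n := fun n i i' hii => TT_mono (vv_anti hρ0 hii) n
  have hsum : ∑ i ∈ range K, (Real.exp (-(e + (i : ℕ) * ρ)) - Real.exp (-(e + ((i + 1 : ℕ) : ℝ) * ρ))) =
      Real.exp (-e) - Real.exp (-(e + K * ρ)) := by
    rw [Finset.sum_range_sub' (fun i : ℕ => Real.exp (-(e + (i : ℝ) * ρ))) K]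
    simp
  have hcast : ∀ i : ℕ, ((i + 1 : ℕ) : ℝ) * ρ = (i : ℝ) * ρ + ρ := fun i => by push_cast; ring
  have hlow : ∃ (g₁ : ℕ → ℝ) (l₁ : ℝ), (∀ᶠ n : ℕ in atTop, g₁ n ≤ ind (G S (θ * n) = G S n ∧ G S n ≤ TT Q u n)) ∧
      Tendsto (lm g₁) atTop (𝓝 l₁) ∧ θ ^ 2 * Real.exp (-e) - ε ≤ l₁ := by
    rcases eq_or_lt_of_le h0 with hz | hpos
    · refine ⟨fun _ => 0, 0, Eventually.of_forall fun n => ind_nonneg _, lm_const 0, ?_⟩
      rw [← hz]
      nlinarith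
    · refine ⟨fun n => ∑ i ∈ range K, (ind (P2 S (zm θ n) (TT Q (vv u ρ i) n) (TT Q (vv u ρ (i + 1)) n) n) -
          ind (P2 S (zm θ n) (TT Q (vv u ρ (i + 1)) n) (TT Q (vv u ρ (i + 1)) n) n)),
        ∑ i ∈ range K, (DD θ (e + i * ρ) (e + ((i + 1 : ℕ) : ℝ) * ρ) - DD θ (e + ((i + 1 : ℕ) : ℝ) * ρ) (e + ((i + 1 : ℕ) : ℝ) * ρ)),
        ?_, ?_, ?_⟩
      · filter_upwards [hR, RR_div.eventually (eventually_le_nhds (show (0 : ℝ) < θ / 2 by positivity)),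
          (zp_lim h0).eventually (eventually_ge_nhds (show θ / 2 < θ by linarith)), eventually_ge_atTop 1] with n g1 g2 g3 g4
        have hn : (0 : ℝ) < n := by exact_mod_cast g4
        rw [div_le_iff₀ hn] at g2
        rw [le_div_iff₀ hn] at g3
        have g5 : RR n ≤ zp θ n := by exact_mod_cast g2.trans g3
        have g6 : ((zm θ n + RR n : ℕ) : ℝ) ≤ θ * n := by
          have : zm θ n + RR n = zp θ n := by unfold zm zp at *; omega
          rw [this]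
          exact Nat.floor_le (by positivity)
        have g7 := lower_sum (K := K) hinf h1 (hanti n) g1 g6
        simp only [vv_zero] at g7
        exact g7
      · have : Tendsto (fun N => ∑ i ∈ range K, lm (fun n => ind (P2 S (zm θ n) (TT Q (vv u ρ i) n) (TT Q (vv u ρ (i + 1)) n) n) -
            ind (P2 S (zm θ n) (TT Q (vv u ρ (i + 1)) n) (TT Q (vv u ρ (i + 1)) n) n)) N) atTop
            (𝓝 (∑ i ∈ range K, (DD θ (e + i * ρ) (e + ((i + 1 : ℕ) : ℝ) * ρ) - DD θ (e + ((i + 1 : ℕ) : ℝ) * ρ) (e + ((i + 1 : ℕ) : ℝ) * ρ)))) := by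
          refine tendsto_finsetSum _ fun i _ => ?_
          rw [hρ, he]
          exact ((hm j i (i + 1)).sub (hm j (i + 1) (i + 1))).congr fun N => (lm_sub _ _ N).symm
        exact this.congr fun N => (lm_sum _ _ N).symm
      · have h4 : θ ^ 2 * Real.exp (-ρ) * (Real.exp (-e) - Real.exp (-(e + K * ρ))) ≤
            ∑ i ∈ range K, (DD θ (e + i * ρ) (e + ((i + 1 : ℕ) : ℝ) * ρ) - DD θ (e + ((i + 1 : ℕ) : ℝ) * ρ) (e + ((i + 1 : ℕ) : ℝ) * ρ)) := by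
          rw [← hsum, Finset.mul_sum]
          refine Finset.sum_le_sum fun i _ => ?_
          rw [DD_diag, hcast]
          exact cell_lower (sq_nonneg θ) _
        refine le_trans ?_ h4
        have h5 : 1 - ρ ≤ Real.exp (-ρ) := by linarith [Real.add_one_le_exp (-ρ)]
        have h6 : Real.exp (-ρ) ≤ 1 := by rw [Real.exp_le_one_iff]; linarith
        have h7 : θ ^ 2 * Real.exp (-ρ) ≤ 1 := mul_le_one₀ hθ2 (Real.exp_pos _).le h6
        have h8 : θ ^ 2 * Real.exp (-ρ) * Real.exp (-(e + K * ρ)) ≤ ρ := by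
          calc θ ^ 2 * Real.exp (-ρ) * Real.exp (-(e + K * ρ)) ≤ 1 * ρ := mul_le_mul h7 htail htail'.le zero_le_one
            _ = ρ := one_mul ρ
        have h9 : θ ^ 2 * Real.exp (-e) * (1 - ρ) ≤ θ ^ 2 * Real.exp (-e) * Real.exp (-ρ) :=
          mul_le_mul_of_nonneg_left h5 (by positivity)
        have h10 : θ ^ 2 * Real.exp (-e) ≤ 1 := mul_le_one₀ hθ2 hF0'.le hF0
        nlinarith
  have hup : ∃ (g₂ : ℕ → ℝ) (l₂ : ℝ), (∀ᶠ n : ℕ in atTop, ind (G S (θ * n) = G S n ∧ G S n ≤ TT Q u n) ≤ g₂ n) ∧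
      Tendsto (lm g₂) atTop (𝓝 l₂) ∧ l₂ ≤ θ ^ 2 * Real.exp (-e) + ε := by
    refine ⟨fun n => ((1 - ind (∀ m ∈ Ioc (n - RR n) n, ¬ LG S (TT Q (vv u ρ K) n) m)) +
        ind (P2 S (zp θ n) (TT Q (vv u ρ K) n) (TT Q (vv u ρ K) n) n)) +
        ∑ i ∈ range K, (ind (P2 S (zp θ n) (TT Q (vv u ρ i) n) (TT Q (vv u ρ i) n) n) -
          ind (P2 S (zp θ n) (TT Q (vv u ρ (i + 1)) n) (TT Q (vv u ρ i) n) n)),
      ((1 - 1) + DD θ (e + K * ρ) (e + K * ρ)) +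
        ∑ i ∈ range K, (DD θ (e + i * ρ) (e + i * ρ) - DD θ (e + ((i + 1 : ℕ) : ℝ) * ρ) (e + i * ρ)), ?_, ?_, ?_⟩
    · filter_upwards [hR, hRx] with n g1 g2
      have g7 := upper_sum (K := K) (z := zp θ n) (θ := θ) hinf (hanti n) g1 g2 rfl (zp_le h1 n)
      simp only [vv_zero] at g7
      exact g7
    · have a1 : Tendsto (lm fun n => (1 - ind (∀ m ∈ Ioc (n - RR n) n, ¬ LG S (TT Q (vv u ρ K) n) m)) +
          ind (P2 S (zp θ n) (TT Q (vv u ρ K) n) (TT Q (vv u ρ K) n) n)) atTop (𝓝 ((1 - 1) + DD θ (e + K * ρ) (e + K * ρ))) := by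
        have a2 := (((lm_const 1).sub (h3 j K)).congr fun N => (lm_sub _ _ N).symm).add (hp j K K)
        rw [← hρ, ← he] at a2
        exact a2.congr fun N => (lm_add _ _ N).symm
      have a3 : Tendsto (lm fun n => ∑ i ∈ range K, (ind (P2 S (zp θ n) (TT Q (vv u ρ i) n) (TT Q (vv u ρ i) n) n) -
          ind (P2 S (zp θ n) (TT Q (vv u ρ (i + 1)) n) (TT Q (vv u ρ i) n) n))) atTop
          (𝓝 (∑ i ∈ range K, (DD θ (e + i * ρ) (e + i * ρ) - DD θ (e + ((i + 1 : ℕ) : ℝ) * ρ) (e + i * ρ)))) := by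
        have : Tendsto (fun N => ∑ i ∈ range K, lm (fun n => ind (P2 S (zp θ n) (TT Q (vv u ρ i) n) (TT Q (vv u ρ i) n) n) -
            ind (P2 S (zp θ n) (TT Q (vv u ρ (i + 1)) n) (TT Q (vv u ρ i) n) n)) N) atTop
            (𝓝 (∑ i ∈ range K, (DD θ (e + i * ρ) (e + i * ρ) - DD θ (e + ((i + 1 : ℕ) : ℝ) * ρ) (e + i * ρ)))) := by
          refine tendsto_finsetSum _ fun i _ => ?_
          rw [hρ, he]
          exact ((hp j i i).sub (hp j (i + 1) i)).congr fun N => (lm_sub _ _ N).symm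
        exact this.congr fun N => (lm_sum _ _ N).symm
      exact (a1.add a3).congr fun N => (lm_add _ _ N).symm
    · have h4 : ∑ i ∈ range K, (DD θ (e + i * ρ) (e + i * ρ) - DD θ (e + ((i + 1 : ℕ) : ℝ) * ρ) (e + i * ρ)) ≤
          θ ^ 2 * (1 + ρ) * (Real.exp (-e) - Real.exp (-(e + K * ρ))) := by
        rw [← hsum, Finset.mul_sum]
        refine Finset.sum_le_sum fun i _ => ?_
        rw [DD_diag, hcast]
        exact cell_upper (sq_nonneg θ) hρ0 _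
      rw [DD_diag]
      have h5 : θ ^ 2 * (1 + ρ) * (Real.exp (-e) - Real.exp (-(e + K * ρ))) ≤ θ ^ 2 * (1 + ρ) * Real.exp (-e) :=
        mul_le_mul_of_nonneg_left (by linarith) (by positivity)
      have h10 : θ ^ 2 * Real.exp (-e) ≤ 1 := mul_le_one₀ hθ2 hF0'.le hF0
      have h11 : θ ^ 2 * (1 + ρ) * Real.exp (-e) ≤ θ ^ 2 * Real.exp (-e) + ρ := by nlinarith
      linarith
  obtain ⟨g₁, l₁, b1, b2, b3⟩ := hlow
  obtain ⟨g₂, l₂, b4, b5, b6⟩ := hup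
  rw [← he]
  exact ⟨g₁, g₂, l₁, l₂, b1, b4, b2, b5, b3, b6⟩

end Pool.Agent.H595.AS
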