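import Pool.Agent.H595.AS.Det
import Pool.Graph.R_pool_sql_team_seeded_3997aac3.Q120.GM.Rec4

/-!
# Size and position of the largest gap: almost surely, for all parameters
-/

set_option autoImplicit false

namespace Pool.Agent.H595.AS

open Finset MeasureTheory ProbabilityTheory Filter Pool.Agent.Q120.AD Pool.Agent.Q120.GM
open scoped Topology

variable {Ω : Type*} [MeasurableSpace Ω] {μ : Measure Ω} [IsProbabilityMeasure μ] {A : Ω → Set ℕ} {Q : ℕ}

theorem inf_R (hA : IsModel μ (level Q) A) (hQ : 1 ≤ Q) : ∀ᵐ ω ∂μ, (∀ N : ℕ, ∃ n, N < n ∧ n ∈ A ω) ∧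
    ∀ᶠ x : ℕ in atTop, ∀ a b, IsGap (A ω) a b → a ≤ x → b - a ≤ RR x := by
  have hS : 0 < sing Q {0} := by rw [sing_zero hQ]; norm_num
  filter_upwards [gap_upper hA hQ hS one_pos le_rfl] with ω hω
  have h1 : ∀ᶠ x : ℕ in atTop, ∃ n : ℕ, x < n ∧ (n : ℝ) ≤ x + 2 * Real.log x ^ 2 ∧ n ∈ A ω := by
    filter_upwards [hω] with x hx
    obtain ⟨n, h1, h2, h3⟩ := hx
    refine ⟨n, h1, ?_, ?_⟩
    · rw [sing_zero hQ, card_singleton] at h2
      norm_num at h2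
      linarith
    · have := h3 0 (mem_singleton_self 0)
      rwa [add_zero] at this
  obtain ⟨x0, h2⟩ := eventually_atTop.1 h1
  refine ⟨fun N => ?_, ?_⟩
  · obtain ⟨n, h3, _, h4⟩ := h2 (max N x0) (le_max_right _ _)
    exact ⟨n, lt_of_le_of_lt (le_max_left _ _) h3, h4⟩
  · obtain ⟨n0, h3, _, h4⟩ := h2 x0 le_rfl
    have hbig : ∀ᶠ x : ℕ in atTop, (n0 : ℝ) ≤ 3 * Real.log x ^ 2 := by
      filter_upwards [hl.eventually_ge_atTop (max 1 (n0 : ℝ))] with x hx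
      have e1 := (le_max_left _ _).trans hx
      have e2 := (le_max_right _ _).trans hx
      nlinarith
    filter_upwards [hbig, hl.eventually_ge_atTop 1] with x g1 g2 a b hg hax
    unfold RR
    refine Nat.le_floor ?_
    obtain ⟨k1, k2, k3, k4⟩ := hg
    rcases le_or_gt x0 a with h5 | h5
    · obtain ⟨n, h6, h7, h8⟩ := h2 a h5
      have h9 : b ≤ n := by
        by_contra hcon
        exact k4 n h6 (by omega) h8
      have h10 : ((b - a : ℕ) : ℝ) = b - a := by rw [Nat.cast_sub k1.le]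
      rw [h10]
      have h11 : (b : ℝ) ≤ n := by exact_mod_cast h9
      have h12 : Real.log a ≤ Real.log x := by
        rcases Nat.eq_zero_or_pos a with h13 | h13
        · rw [h13, Nat.cast_zero, Real.log_zero]
          linarith
        · exact Real.log_le_log (by exact_mod_cast h13) (by exact_mod_cast hax)
      have h13 : 0 ≤ Real.log a := Real.log_natCast_nonneg a
      have h14 : Real.log a ^ 2 ≤ Real.log x ^ 2 := pow_le_pow_left₀ h13 h12 2
      nlinarith [sq_nonneg (Real.log x)]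
    · have h9 : b ≤ n0 := by
        by_contra hcon
        exact k4 n0 (by omega) (by omega) h4
      refine le_trans ?_ g1
      exact_mod_cast (by omega : b - a ≤ n0)

omit [MeasurableSpace Ω] in
theorem indicator_ev {z : ℕ → ℕ} (hz : ∀ n, z n ≤ n) (v w : ℝ) (ω : Ω) (n : ℕ) :
    (ev A (tau2 Q z v w n) (range (n + 1))).indicator (fun _ => (1 : ℝ)) ω =
      ind (P2 (A ω) (z n) (TT Q v n) (TT Q w n) n) := by
  have hzn := hz n
  have h1 : ω ∈ ev A (tau2 Q z v w n) (range (n + 1)) ↔ P2 (A ω) (z n) (TT Q v n) (TT Q w n) n := by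
    rw [mem_ev]
    unfold tau2 P2
    constructor
    · intro h
      refine ⟨fun m hm => ?_, fun m hm hm' => ?_⟩
      · have := h m (mem_range.2 (by omega))
        rwa [if_pos hm] at this
      · have := h m (mem_range.2 (by omega))
        rwa [if_neg (by omega)] at this
    · rintro ⟨h2, h3⟩ m hm
      rw [mem_range] at hm
      split_ifs with h4
      · exact h2 m h4
      · exact h3 m (by omega) (by omega)
  by_cases h : ω ∈ ev A (tau2 Q z v w n) (range (n + 1))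
  · rw [Set.indicator_of_mem h, ind_true (h1.1 h)]
  · rw [Set.indicator_of_notMem h, ind_false fun h2 => h (h1.2 h2)]

omit [MeasurableSpace Ω] in
theorem indicator_ev3 (v : ℝ) (ω : Ω) (n : ℕ) :
    (ev A (fun _ => TT Q v n) (Ioc (n - RR n) n)).indicator (fun _ => (1 : ℝ)) ω =
      ind (∀ m ∈ Ioc (n - RR n) n, ¬ LG (A ω) (TT Q v n) m) := by
  by_cases h : ω ∈ ev A (fun _ => TT Q v n) (Ioc (n - RR n) n)
  · rw [Set.indicator_of_mem h]
    exact (ind_true (mem_ev.1 h)).symm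
  · rw [Set.indicator_of_notMem h]
    exact (ind_false fun h2 => h (mem_ev.2 h2)).symm

/-- A rational number, moved to `[0, 1]`. -/
noncomputable def gr (q : ℚ) : ℝ := max 0 (min 1 (q : ℝ))

theorem gr_nonneg (q : ℚ) : 0 ≤ gr q := le_max_left _ _

theorem gr_le_one (q : ℚ) : gr q ≤ 1 := max_le zero_le_one (min_le_left _ _)

theorem two_param (hA : IsModel μ (level Q) A) (hQ : 1 ≤ Q) {z : ℕ → ℕ} (hz : ∀ x, z x ≤ x) {θ : ℝ}
    (hzl : Tendsto (fun x : ℕ => (z x : ℝ) / x) atTop (𝓝 θ)) (u : ℝ) (j i i' : ℕ) :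
    ∀ᵐ ω ∂μ, Tendsto (lm fun n => ind (P2 (A ω) (z n) (TT Q (vv u (1 / ((j : ℝ) + 1)) i) n)
      (TT Q (vv u (1 / ((j : ℝ) + 1)) i') n) n)) atTop
      (𝓝 (DD θ (Real.exp (-u) + i * (1 / ((j : ℝ) + 1))) (Real.exp (-u) + i' * (1 / ((j : ℝ) + 1))))) := by
  have hρ : (0 : ℝ) ≤ 1 / ((j : ℝ) + 1) := by positivity
  filter_upwards [asl2 hA hQ hz hzl (vv u (1 / ((j : ℝ) + 1)) i) (vv u (1 / ((j : ℝ) + 1)) i')] with ω hω
  unfold DD
  rw [← exp_vv (u := u) hρ i, ← exp_vv (u := u) hρ i']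
  refine hω.congr fun N => ?_
  congr 1
  funext n
  exact indicator_ev hz _ _ ω n

/-- **Almost surely, for all parameters.** -/
theorem main (hA : IsModel μ (level Q) A) (hQ : 1 ≤ Q) : ∀ᵐ ω ∂μ, ∀ θ u : ℝ, 0 ≤ θ → θ ≤ 1 →
    Tendsto (lm fun n => ind (G (A ω) (θ * n) = G (A ω) n ∧ G (A ω) n ≤ TT Q u n)) atTop
      (𝓝 (θ ^ 2 * Real.exp (-Real.exp (-u)))) := by
  have Hp : ∀ᵐ ω ∂μ, ∀ (q u : ℚ) (j i i' : ℕ), Tendsto (lm fun n => ind (P2 (A ω) (zp (gr q) n)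
      (TT Q (vv u (1 / ((j : ℝ) + 1)) i) n) (TT Q (vv u (1 / ((j : ℝ) + 1)) i') n) n)) atTop
      (𝓝 (DD (gr q) (Real.exp (-u) + i * (1 / ((j : ℝ) + 1))) (Real.exp (-u) + i' * (1 / ((j : ℝ) + 1))))) :=
    ae_all_iff.2 fun q => ae_all_iff.2 fun u => ae_all_iff.2 fun j => ae_all_iff.2 fun i => ae_all_iff.2 fun i' =>
      two_param hA hQ (zp_le (gr_le_one q)) (zp_lim (gr_nonneg q)) u j i i'
  have Hm : ∀ᵐ ω ∂μ, ∀ (q u : ℚ) (j i i' : ℕ), Tendsto (lm fun n => ind (P2 (A ω) (zm (gr q) n)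
      (TT Q (vv u (1 / ((j : ℝ) + 1)) i) n) (TT Q (vv u (1 / ((j : ℝ) + 1)) i') n) n)) atTop
      (𝓝 (DD (gr q) (Real.exp (-u) + i * (1 / ((j : ℝ) + 1))) (Real.exp (-u) + i' * (1 / ((j : ℝ) + 1))))) :=
    ae_all_iff.2 fun q => ae_all_iff.2 fun u => ae_all_iff.2 fun j => ae_all_iff.2 fun i => ae_all_iff.2 fun i' =>
      two_param hA hQ (zm_le (gr_le_one q)) (zm_lim (gr_nonneg q)) u j i i'
  have H3 : ∀ᵐ ω ∂μ, ∀ (u : ℚ) (j i : ℕ), Tendsto (lm fun n => ind (∀ m ∈ Ioc (n - RR n) n,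
      ¬ LG (A ω) (TT Q (vv u (1 / ((j : ℝ) + 1)) i) n) m)) atTop (𝓝 1) := by
    refine ae_all_iff.2 fun u => ae_all_iff.2 fun j => ae_all_iff.2 fun i => ?_
    filter_upwards [asl3 hA hQ (vv u (1 / ((j : ℝ) + 1)) i)] with ω hω
    refine hω.congr fun N => ?_
    congr 1
    funext n
    exact indicator_ev3 _ ω n
  filter_upwards [Hp, Hm, H3, inf_R hA hQ] with ω hp hm h3 hiR θ u h0 h1
  obtain ⟨hinf, hR⟩ := hiR
  have hrat : ∀ q v : ℚ, Tendsto (lm fun n => ind (G (A ω) (gr q * n) = G (A ω) n ∧ G (A ω) n ≤ TT Q v n)) atTop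
      (𝓝 (gr q ^ 2 * Real.exp (-Real.exp (-v)))) := fun q v =>
    det hinf hR (gr_nonneg q) (gr_le_one q) (hp q v) (hm q v) (h3 v)
  have hmono : ∀ (n : ℕ) (θ₁ θ₂ u₁ u₂ : ℝ), θ₁ ≤ θ₂ → θ₂ ≤ 1 → u₁ ≤ u₂ →
      ind (G (A ω) (θ₁ * n) = G (A ω) n ∧ G (A ω) n ≤ TT Q u₁ n) ≤ ind (G (A ω) (θ₂ * n) = G (A ω) n ∧ G (A ω) n ≤ TT Q u₂ n) := by
    intro n θ₁ θ₂ u₁ u₂ k1 k2 k3
    refine ind_mono fun h => ⟨le_antisymm ?_ ?_, h.2.trans (TT_mono k3 n)⟩
    · exact G_mono (by nlinarith [Nat.cast_nonneg (α := ℝ) n])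
    · rw [← h.1]
      exact G_mono (by nlinarith [Nat.cast_nonneg (α := ℝ) n])
  refine lm_squeeze fun ε hε => ?_
  have hcont : Continuous fun x : ℝ × ℝ => x.1 ^ 2 * Real.exp (-Real.exp (-x.2)) := by fun_prop
  obtain ⟨δ, hδ, hd⟩ := Metric.continuous_iff.1 hcont (θ, u) ε hε
  obtain ⟨q₁, a1, a2⟩ := exists_rat_btwn (show θ - δ < θ by linarith)
  obtain ⟨q₂, a3, a4⟩ := exists_rat_btwn (show θ < θ + δ by linarith)
  obtain ⟨v₁, b1, b2⟩ := exists_rat_btwn (show u - δ < u by linarith)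
  obtain ⟨v₂, b3, b4⟩ := exists_rat_btwn (show u < u + δ by linarith)
  have c1 : gr q₁ ≤ θ := max_le h0 ((min_le_right _ _).trans a2.le)
  have c2 : θ - δ < gr q₁ := by
    refine lt_of_lt_of_le a1 (le_max_of_le_right (le_min ?_ le_rfl))
    linarith
  have c3 : θ ≤ gr q₂ := le_max_of_le_right (le_min h1 a3.le)
  have c4 : gr q₂ < θ + δ := max_lt (by linarith) (lt_of_le_of_lt (min_le_right _ _) a4)
  have d1 := hd (gr q₁, (v₁ : ℝ)) (by
    rw [Prod.dist_eq, Real.dist_eq, Real.dist_eq]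
    refine max_lt ?_ ?_
    · rw [abs_lt]
      constructor <;> linarith
    · rw [abs_lt]
      constructor <;> linarith)
  have d2 := hd (gr q₂, (v₂ : ℝ)) (by
    rw [Prod.dist_eq, Real.dist_eq, Real.dist_eq]
    refine max_lt ?_ ?_
    · rw [abs_lt]
      constructor <;> linarith
    · rw [abs_lt]
      constructor <;> linarith)
  rw [Real.dist_eq, abs_lt] at d1 d2
  simp only at d1 d2
  refine ⟨_, _, _, _, Eventually.of_forall fun n => hmono n (gr q₁) θ v₁ u c1 h1 b2.le,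
    Eventually.of_forall fun n => hmono n θ (gr q₂) u v₂ c3 (gr_le_one q₂) b3.le, hrat q₁ v₁, hrat q₂ v₂, ?_, ?_⟩
  · linarith [d1.1]
  · linarith [d2.2]

end Pool.Agent.H595.AS
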