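import Pool.Agent.H595.AS.Dec
import Pool.Graph.R_pool_sql_team_seeded_3997aac3.Q120.GM.Rec1

/-!
# Size and position of the largest gap: the deterministic part
-/

set_option autoImplicit false

namespace Pool.Agent.H595.AS

open Finset MeasureTheory ProbabilityTheory Filter Pool.Agent.Q120.AD Pool.Agent.Q120.GM
open scoped Topology

/-- The largest difference `b - a` of consecutive elements `a < b ≤ X` of `S` (`0` if there are none). -/
noncomputable def G (S : Set ℕ) (X : ℝ) : ℕ := sSup {d : ℕ | ∃ a b : ℕ, IsGap S a b ∧ (b : ℝ) ≤ X ∧ d = b - a}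

variable {S : Set ℕ}

theorem G_bdd (S : Set ℕ) (X : ℝ) : BddAbove {d : ℕ | ∃ a b : ℕ, IsGap S a b ∧ (b : ℝ) ≤ X ∧ d = b - a} := by
  refine ⟨⌊X⌋₊, ?_⟩
  rintro d ⟨a, b, _, h2, rfl⟩
  exact (Nat.sub_le _ _).trans (Nat.le_floor h2)

theorem G_le {X : ℝ} {T : ℕ} : G S X ≤ T ↔ ∀ a b, IsGap S a b → (b : ℝ) ≤ X → b - a ≤ T := by
  unfold G
  rw [csSup_le_iff' (G_bdd S X)]
  constructor
  · intro h a b h1 h2
    exact h _ ⟨a, b, h1, h2, rfl⟩
  · rintro h d ⟨a, b, h1, h2, rfl⟩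
    exact h a b h1 h2

theorem lt_G {X : ℝ} {T : ℕ} : T < G S X ↔ ∃ a b, IsGap S a b ∧ (b : ℝ) ≤ X ∧ T < b - a := by
  rw [← not_le, G_le]
  push Not
  rfl

theorem G_mono {X Y : ℝ} (h : X ≤ Y) : G S X ≤ G S Y :=
  G_le.2 fun a b h1 h2 => G_le.1 le_rfl a b h1 (h2.trans h)

/-- `a` is an element and none of the next `T` numbers is. -/
def LG (S : Set ℕ) (T a : ℕ) : Prop := a ∈ S ∧ ∀ n ∈ Ioc a (a + T), n ∉ S

theorem LG_iff {a b : ℕ} (h : IsGap S a b) (T : ℕ) : LG S T a ↔ T < b - a := by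
  obtain ⟨h1, h2, h3, h4⟩ := h
  constructor
  · rintro ⟨_, h6⟩
    by_contra hcon
    exact h6 b (mem_Ioc.2 ⟨h1, by omega⟩) h3
  · intro h5
    refine ⟨h2, fun n hn => ?_⟩
    rw [mem_Ioc] at hn
    exact h4 n hn.1 (by omega)

theorem LG_anti {s t a : ℕ} (h : t ≤ s) (hs : LG S s a) : LG S t a :=
  ⟨hs.1, fun n hn => hs.2 n (by rw [mem_Ioc] at hn ⊢; omega)⟩

theorem exists_gap (hinf : ∀ N : ℕ, ∃ n, N < n ∧ n ∈ S) {a : ℕ} (ha : a ∈ S) : ∃ b, IsGap S a b := by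
  obtain ⟨n, h1, h2⟩ := hinf a
  obtain ⟨d, h3, _⟩ := next_exists ha h2 h1
  exact ⟨d, h3⟩

/-- No long gap, with the threshold `s` up to `z` and `t` from `z` to `x`. -/
def P2 (S : Set ℕ) (z s t x : ℕ) : Prop := (∀ m ≤ z, ¬ LG S s m) ∧ ∀ m, z < m → m ≤ x → ¬ LG S t m

theorem lower_pt (hinf : ∀ N : ℕ, ∃ n, N < n ∧ n ∈ S) {x R z s t : ℕ} {θ : ℝ} (hθ : θ ≤ 1)
    (hR : ∀ a b, IsGap S a b → a ≤ x → b - a ≤ R) (hz : ((z + R : ℕ) : ℝ) ≤ θ * x) (hts : t ≤ s)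
    (h1 : P2 S z s t x) (h2 : ¬ P2 S z t t x) : G S (θ * x) = G S x ∧ G S x ≤ s := by
  have hx : θ * x ≤ (x : ℝ) := by nlinarith [Nat.cast_nonneg (α := ℝ) x]
  have hzx : z ≤ x := by
    have : ((z + R : ℕ) : ℝ) ≤ x := hz.trans hx
    have : z + R ≤ x := by exact_mod_cast this
    omega
  obtain ⟨a0, ha0, hL⟩ : ∃ a0, a0 ≤ z ∧ LG S t a0 := by
    by_contra hcon
    push Not at hcon
    exact h2 ⟨fun m hm => hcon m hm, h1.2⟩
  obtain ⟨b0, hg⟩ := exists_gap hinf hL.1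
  have hlen := (LG_iff hg t).1 hL
  have hb0 : (b0 : ℝ) ≤ θ * x := by
    refine le_trans ?_ hz
    have h3 := hR a0 b0 hg (by omega)
    have h4 := hg.1
    exact_mod_cast (by omega : b0 ≤ z + R)
  have hG : t < G S (θ * x) := lt_G.2 ⟨a0, b0, hg, hb0, hlen⟩
  constructor
  · refine le_antisymm (G_mono hx) (G_le.2 fun a b h3 h4 => ?_)
    have hab := h3.1
    have h5 : b ≤ x := by exact_mod_cast h4
    rcases le_or_gt a z with h6 | h6
    · refine G_le.1 le_rfl a b h3 (le_trans ?_ hz)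
      have h7 := hR a b h3 (by omega)
      exact_mod_cast (by omega : b ≤ z + R)
    · have h7 : ¬ LG S t a := h1.2 a h6 (by omega)
      rw [LG_iff h3] at h7
      omega
  · refine G_le.2 fun a b h3 h4 => ?_
    have hab := h3.1
    have h5 : b ≤ x := by exact_mod_cast h4
    rcases le_or_gt a z with h6 | h6
    · have h7 := h1.1 a h6
      rw [LG_iff h3] at h7
      omega
    · have h7 : ¬ LG S t a := h1.2 a h6 (by omega)
      rw [LG_iff h3] at h7
      omega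

theorem upper_pt (hinf : ∀ N : ℕ, ∃ n, N < n ∧ n ∈ S) {x R z s t : ℕ} {θ : ℝ}
    (hR : ∀ a b, IsGap S a b → a ≤ x → b - a ≤ R) (hz : z = ⌊θ * x⌋₊)
    (hN : ∀ m ∈ Ioc (x - R) x, ¬ LG S t m) (hE : G S (θ * x) = G S x)
    (h2 : ¬ P2 S z t t x) (hzx : z ≤ x) : ¬ P2 S z t s x := by
  rintro ⟨h3, -⟩
  obtain ⟨m, hm, hL⟩ : ∃ m, m ≤ x ∧ LG S t m := by
    by_contra hcon
    push Not at hcon
    exact h2 ⟨fun m hm => hcon m (by omega), fun m _ hm => hcon m hm⟩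
  have hm2 : m ≤ x - R := by
    by_contra hcon
    exact hN m (mem_Ioc.2 ⟨by omega, hm⟩) hL
  obtain ⟨b, hg⟩ := exists_gap hinf hL.1
  have hlen := (LG_iff hg t).1 hL
  have hbR := hR m b hg hm
  have h5 : (b : ℝ) ≤ (x : ℝ) := by
    have := hg.1
    rcases le_or_gt R x with h6 | h6
    · exact_mod_cast (by omega : b ≤ x)
    · -- then `m = 0`
      exfalso
      have h7 : m = 0 := by omega
      subst h7
      exact h3 0 (Nat.zero_le _) hL
  have hG : t < G S x := lt_G.2 ⟨m, b, hg, h5, hlen⟩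
  rw [← hE] at hG
  obtain ⟨a1, b1, hg1, hb1, hl1⟩ := lt_G.1 hG
  refine h3 a1 ?_ ((LG_iff hg1 t).2 hl1)
  rw [hz]
  refine (Nat.le_of_lt hg1.1).trans (Nat.le_floor hb1)

theorem upper_pt0 (hinf : ∀ N : ℕ, ∃ n, N < n ∧ n ∈ S) {x R z s t : ℕ}
    (hR : ∀ a b, IsGap S a b → a ≤ x → b - a ≤ R) (hRx : R ≤ x) (hts : t ≤ s)
    (hN : ∀ m ∈ Ioc (x - R) x, ¬ LG S t m) (hE : G S x ≤ s) (hzx : z ≤ x) : P2 S z s s x := by
  have key : ∀ m ≤ x, ¬ LG S s m := by
    intro m hm hL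
    rcases le_or_gt m (x - R) with h1 | h1
    · obtain ⟨b, hg⟩ := exists_gap hinf hL.1
      have hlen := (LG_iff hg s).1 hL
      have hbR := hR m b hg hm
      have := hg.1
      have h5 : (b : ℝ) ≤ (x : ℝ) := by exact_mod_cast (by omega : b ≤ x)
      have := G_le.1 hE m b hg h5
      omega
    · exact hN m (mem_Ioc.2 ⟨h1, hm⟩) (LG_anti hts hL)
  exact ⟨fun m hm => key m (by omega), fun m _ hm => key m hm⟩

open Classical in
/-- The indicator of a proposition. -/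
noncomputable def ind (P : Prop) : ℝ := if P then 1 else 0

theorem ind_nonneg (P : Prop) : 0 ≤ ind P := by unfold ind; split_ifs <;> norm_num

theorem ind_le_one (P : Prop) : ind P ≤ 1 := by unfold ind; split_ifs <;> norm_num

theorem ind_mono {P P' : Prop} (h : P → P') : ind P ≤ ind P' := by
  unfold ind
  split_ifs with h1 h2 h2
  · exact le_rfl
  · exact absurd (h h1) h2
  · norm_num
  · exact le_rfl

theorem ind_true {P : Prop} (h : P) : ind P = 1 := by unfold ind; rw [if_pos h]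

theorem ind_false {P : Prop} (h : ¬ P) : ind P = 0 := by unfold ind; rw [if_neg h]

theorem P2_mono {z s t s' t' x : ℕ} (h1 : s' ≤ s) (h2 : t' ≤ t) (h : P2 S z s' t' x) : P2 S z s t x :=
  ⟨fun m hm hL => h.1 m hm (LG_anti h1 hL), fun m hm hm' hL => h.2 m hm hm' (LG_anti h2 hL)⟩

/-- The lower bound for the indicator. -/
theorem lower_sum (hinf : ∀ N : ℕ, ∃ n, N < n ∧ n ∈ S) {x R z K : ℕ} {θ : ℝ} (hθ : θ ≤ 1) {t : ℕ → ℕ} (ht : Antitone t)
    (hR : ∀ a b, IsGap S a b → a ≤ x → b - a ≤ R) (hz : ((z + R : ℕ) : ℝ) ≤ θ * x) :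
    ∑ i ∈ range K, (ind (P2 S z (t i) (t (i + 1)) x) - ind (P2 S z (t (i + 1)) (t (i + 1)) x)) ≤
      ind (G S (θ * x) = G S x ∧ G S x ≤ t 0) := by
  by_cases hE : G S (θ * x) = G S x ∧ G S x ≤ t 0
  · rw [ind_true hE]
    have h1 : ∀ i ∈ range K, ind (P2 S z (t i) (t (i + 1)) x) - ind (P2 S z (t (i + 1)) (t (i + 1)) x) ≤
        ind (P2 S z (t i) (t i) x) - ind (P2 S z (t (i + 1)) (t (i + 1)) x) := by
      intro i _
      have := ind_mono (P2_mono (S := S) (z := z) (x := x) (le_refl (t i)) (ht (Nat.le_succ i)))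
      linarith
    refine (Finset.sum_le_sum h1).trans ?_
    rw [Finset.sum_range_sub' (fun i => ind (P2 S z (t i) (t i) x)) K]
    have := ind_le_one (P2 S z (t 0) (t 0) x)
    have := ind_nonneg (P2 S z (t K) (t K) x)
    linarith
  · rw [ind_false hE]
    refine Finset.sum_nonpos fun i _ => ?_
    by_cases h1 : P2 S z (t i) (t (i + 1)) x
    · by_cases h2 : P2 S z (t (i + 1)) (t (i + 1)) x
      · rw [ind_true h1, ind_true h2, sub_self]
      · exfalso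
        obtain ⟨h3, h4⟩ := lower_pt hinf hθ hR hz (ht (Nat.le_succ i)) h1 h2
        exact hE ⟨h3, h4.trans (ht (Nat.zero_le i))⟩
    · rw [ind_false h1]
      have := ind_nonneg (P2 S z (t (i + 1)) (t (i + 1)) x)
      linarith

/-- The upper bound for the indicator. -/
theorem upper_sum (hinf : ∀ N : ℕ, ∃ n, N < n ∧ n ∈ S) {x R z K : ℕ} {θ : ℝ} {t : ℕ → ℕ} (ht : Antitone t)
    (hR : ∀ a b, IsGap S a b → a ≤ x → b - a ≤ R) (hRx : R ≤ x) (hz : z = ⌊θ * x⌋₊) (hzx : z ≤ x) :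
    ind (G S (θ * x) = G S x ∧ G S x ≤ t 0) ≤ (1 - ind (∀ m ∈ Ioc (x - R) x, ¬ LG S (t K) m)) +
      ind (P2 S z (t K) (t K) x) + ∑ i ∈ range K, (ind (P2 S z (t i) (t i) x) - ind (P2 S z (t (i + 1)) (t i) x)) := by
  have hterm : ∀ i, 0 ≤ ind (P2 S z (t i) (t i) x) - ind (P2 S z (t (i + 1)) (t i) x) := by
    intro i
    have := ind_mono (P2_mono (S := S) (z := z) (x := x) (ht (Nat.le_succ i)) (le_refl (t i)))
    linarith
  have hsum : 0 ≤ ∑ i ∈ range K, (ind (P2 S z (t i) (t i) x) - ind (P2 S z (t (i + 1)) (t i) x)) :=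
    Finset.sum_nonneg fun i _ => hterm i
  have hN1 := ind_le_one (∀ m ∈ Ioc (x - R) x, ¬ LG S (t K) m)
  have hK0 := ind_nonneg (P2 S z (t K) (t K) x)
  by_cases hE : G S (θ * x) = G S x ∧ G S x ≤ t 0
  swap
  · rw [ind_false hE]
    linarith
  rw [ind_true hE]
  by_cases hN : ∀ m ∈ Ioc (x - R) x, ¬ LG S (t K) m
  swap
  · rw [ind_false hN]
    linarith
  rw [ind_true hN]
  by_cases hK : P2 S z (t K) (t K) x
  · rw [ind_true hK]
    linarith
  rw [ind_false hK]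
  have h0 : P2 S z (t 0) (t 0) x := upper_pt0 hinf hR hRx (ht (Nat.zero_le K)) hN hE.2 hzx
  obtain ⟨i, hi1, hi2, hi3⟩ : ∃ i, i < K ∧ P2 S z (t i) (t i) x ∧ ¬ P2 S z (t (i + 1)) (t (i + 1)) x := by
    by_contra hcon
    push Not at hcon
    have : ∀ j ≤ K, P2 S z (t j) (t j) x := by
      intro j
      induction j with
      | zero => exact fun _ => h0
      | succ j ih => exact fun hj => hcon j (by omega) (ih (by omega))
    exact hK (this K le_rfl)
  have hN' : ∀ m ∈ Ioc (x - R) x, ¬ LG S (t (i + 1)) m := fun m hm hL => hN m hm (LG_anti (ht (by omega)) hL)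
  have h3 : ¬ P2 S z (t (i + 1)) (t i) x := upper_pt hinf hR hz hN' hE.1 hi3 hzx
  have h4 : ind (P2 S z (t i) (t i) x) - ind (P2 S z (t (i + 1)) (t i) x) = 1 := by
    rw [ind_true hi2, ind_false h3]
    norm_num
  have h5 := Finset.single_le_sum (f := fun i => ind (P2 S z (t i) (t i) x) - ind (P2 S z (t (i + 1)) (t i) x))
    (fun i _ => hterm i) (mem_range.2 hi1)
  simp only [h4] at h5
  linarith

end Pool.Agent.H595.AS
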