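import Pool.Agent.H595.AS.Asl
import Pool.Graph.R_pool_sql_team_seeded_3997aac3.Q120.GM.Gum5
import Pool.Graph.R_pool_sql_team_seeded_3997aac3.Q120.GM.Exists

/-!
# The maximal gap up to `z x`, at the thresholds of `x`

The first two theorems follow the proof of the library module `Q120.GM.Gum5` (the case `z x = x`).
-/

set_option autoImplicit false

namespace Pool.Agent.H595.AS

open Finset MeasureTheory ProbabilityTheory Filter Pool.Agent.Q120.AD Pool.Agent.Q120.GM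
open scoped Topology

variable {Q : ℕ}

theorem VV_z_lim (hQ : 1 ≤ Q) {z : ℕ → ℕ} (hz : ∀ x, z x ≤ x) {θ : ℝ}
    (hzl : Tendsto (fun x : ℕ => (z x : ℝ) / x) atTop (𝓝 θ)) :
    Tendsto (fun x : ℕ => qq Q * VV Q (z x) / (x : ℝ) ^ 2) atTop (𝓝 (θ ^ 2 / 2)) := by
  classical
  have hq := qq_pos hQ
  have h1 : ∀ x : ℕ, |qq Q * VV Q x - (x : ℝ) * (x + 1) / 2| ≤ 2 * (x + 1) * Q := by
    intro x
    have h2 := weight_bounds hQ (x + 1)
    have h3 : ∑ m ∈ range (x + 1), (m : ℝ) * ((if m.Coprime Q then (1 : ℝ) else 0) - 1 / qq Q) =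
        VV Q x - (x : ℝ) * (x + 1) / 2 * (1 / qq Q) := by
      unfold VV
      have h4 : ∑ m ∈ range (x + 1), (m : ℝ) = (x : ℝ) * (x + 1) / 2 := by
        have := Finset.sum_range_id_mul_two (x + 1)
        have h5 : ((∑ m ∈ range (x + 1), m : ℕ) : ℝ) * 2 = ((x + 1 : ℕ) : ℝ) * x := by
          rw [Nat.add_sub_cancel] at this
          exact_mod_cast this
        push_cast at h5
        linarith
      rw [← h4, sum_mul, ← sum_sub_distrib]
      refine sum_congr rfl (fun m _ => ?_)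
      split_ifs <;> ring
    rw [h3] at h2
    have h4 : qq Q * VV Q x - (x : ℝ) * (x + 1) / 2 = qq Q * (VV Q x - (x : ℝ) * (x + 1) / 2 * (1 / qq Q)) := by
      field_simp
    rw [h4, abs_mul, abs_of_pos hq]
    calc qq Q * |VV Q x - (x : ℝ) * (x + 1) / 2 * (1 / qq Q)| ≤ qq Q * (2 * ((x + 1 : ℕ) : ℝ) * (Q / qq Q)) :=
          mul_le_mul_of_nonneg_left h2 hq.le
      _ = 2 * (x + 1) * Q := by
          push_cast
          field_simp
  have hinv : Tendsto (fun x : ℕ => 1 / (x : ℝ)) atTop (𝓝 0) := tendsto_one_div_atTop_nhds_zero_nat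
  have h2 : Tendsto (fun x : ℕ => (qq Q * VV Q (z x) - (z x : ℝ) * (z x + 1) / 2) / (x : ℝ) ^ 2) atTop (𝓝 0) := by
    have h3 := hinv.const_mul (4 * (Q : ℝ))
    rw [mul_zero] at h3
    refine squeeze_zero_norm' ?_ h3
    filter_upwards [eventually_ge_atTop 1] with x hx
    have hx0 : (0 : ℝ) < x := by exact_mod_cast hx
    have hx1 : (1 : ℝ) ≤ x := by exact_mod_cast hx
    have hzx : (z x : ℝ) ≤ x := by exact_mod_cast hz x
    have hQ0 : (0 : ℝ) ≤ Q := Nat.cast_nonneg _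
    rw [Real.norm_eq_abs, abs_div, abs_of_pos (by positivity : 0 < (x : ℝ) ^ 2), div_le_iff₀ (by positivity)]
    refine (h1 (z x)).trans ?_
    have : 4 * (Q : ℝ) * (1 / x) * (x : ℝ) ^ 2 = 4 * Q * x := by field_simp
    rw [this]
    nlinarith
  have h3 : Tendsto (fun x : ℕ => (z x : ℝ) * (z x + 1) / 2 / (x : ℝ) ^ 2) atTop (𝓝 (θ ^ 2 / 2)) := by
    have h4 := (hzl.mul (hzl.add hinv)).div_const 2
    rw [add_zero, ← pow_two] at h4
    refine h4.congr' ?_
    filter_upwards [eventually_ge_atTop 1] with x hx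
    have hx0 : (0 : ℝ) < x := by exact_mod_cast hx
    field_simp
  have h4 := h2.add h3
  rw [zero_add] at h4
  refine h4.congr (fun x => ?_)
  ring

theorem ssum_z_lim (hQ : 1 ≤ Q) {z : ℕ → ℕ} (hz : ∀ x, z x ≤ x) {θ : ℝ}
    (hzl : Tendsto (fun x : ℕ => (z x : ℝ) / x) atTop (𝓝 θ)) (u : ℝ) :
    Tendsto (fun x : ℕ => ∑ m ∈ range (z x + 1), ee (level Q) (TT Q u x) m) atTop (𝓝 (θ ^ 2 * Real.exp (-u))) := by
  classical
  have hq := qq_pos hQ
  obtain ⟨C, hC, hcr⟩ := crude hQ u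
  obtain ⟨lam, hlam⟩ : ∃ lam, lam = Real.exp (-u) := ⟨_, rfl⟩
  have hlam0 : 0 < lam := by rw [hlam]; exact Real.exp_pos _
  have hen : ∀ x m, 0 ≤ ee (level Q) (TT Q u x) m := fun x m => by
    unfold ee
    exact mul_nonneg (level_nonneg Q m) (prod_nonneg (fun j _ => by linarith [level_le_one Q j]))
  have hinvl : Tendsto (fun x : ℕ => 1 / Real.log (x : ℝ)) atTop (𝓝 0) := tendsto_const_nhds.div_atTop hl
  have hlx : Tendsto (fun x : ℕ => Real.log (x : ℝ) / (x : ℝ) ^ (1 : ℝ)) atTop (𝓝 0) := by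
    have := log_pow_div_rpow 1 (show (0 : ℝ) < 1 by norm_num)
    simpa using this
  -- the error
  have key : ∀ δ : ℝ, 0 < δ → ∀ᶠ x : ℕ in atTop,
      2 * lam * Real.exp (-δ) * (qq Q * VV Q (z x) / (x : ℝ) ^ 2 - qq Q * (2 / Real.log x)) ≤
        ∑ m ∈ range (z x + 1), ee (level Q) (TT Q u x) m ∧
      ∑ m ∈ range (z x + 1), ee (level Q) (TT Q u x) m ≤
        2 * lam * Real.exp δ * (1 + δ) * (qq Q * VV Q (z x) / (x : ℝ) ^ 2) + 2 * C * (1 / Real.log x) := by
    intro δ hδ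
    have hx3 : ∀ᶠ x : ℕ in atTop, 1 * Real.log x ^ 3 ≤ (x : ℝ) ^ (1 : ℝ) := ev_power 1 3 one_pos
    filter_upwards [main_region hQ u hδ, hcr, hx3, hl.eventually_ge_atTop 1, eventually_ge_atTop 2] with x g1 g2 g3 g4 g5
    have hzx := hz x
    rw [Real.rpow_one, one_mul] at g3
    rw [← hlam] at g1
    have hx0 : (0 : ℝ) < x := by exact_mod_cast (by omega : 0 < x)
    obtain ⟨L, hLd⟩ : ∃ L, L = Real.log (x : ℝ) := ⟨_, rfl⟩
    rw [← hLd] at g1 g2 g3 g4 ⊢
    have hL0 : 0 < L := by linarith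
    obtain ⟨y, hy⟩ : ∃ y, y = (x : ℝ) / L ^ 3 := ⟨_, rfl⟩
    rw [← hy] at g1
    have hy1 : 1 ≤ y := by rw [hy, le_div_iff₀ (by positivity)]; linarith
    -- the small indices
    have hcard : (((range (z x + 1)).filter (fun m : ℕ => (m : ℝ) < y)).card : ℝ) ≤ 2 * y := by
      have e1 : (range (z x + 1)).filter (fun m : ℕ => (m : ℝ) < y) ⊆ range (⌊y⌋₊ + 1) := by
        intro m hm
        rw [mem_filter] at hm
        rw [mem_range]
        exact Nat.lt_succ_of_le (Nat.le_floor hm.2.le)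
      have e2 := card_le_card e1
      rw [card_range] at e2
      have e3 : (((range (z x + 1)).filter (fun m : ℕ => (m : ℝ) < y)).card : ℝ) ≤ (⌊y⌋₊ : ℝ) + 1 := by exact_mod_cast e2
      have e4 := Nat.floor_le (show 0 ≤ y by linarith)
      linarith
    have hsplit : ∀ g : ℕ → ℝ, ∑ m ∈ range (z x + 1), g m = ∑ m ∈ (range (z x + 1)).filter (fun m : ℕ => (m : ℝ) < y), g m +
        ∑ m ∈ (range (z x + 1)).filter (fun m : ℕ => ¬ (m : ℝ) < y), g m := fun g => (sum_filter_add_sum_filter_not _ _ _).symm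
    have hsmall : ∑ m ∈ (range (z x + 1)).filter (fun m : ℕ => (m : ℝ) < y), ee (level Q) (TT Q u x) m ≤ 2 * C * (1 / L) := by
      have e1 : ∀ m ∈ (range (z x + 1)).filter (fun m : ℕ => (m : ℝ) < y), ee (level Q) (TT Q u x) m ≤ C * L / x := by
        intro m hm
        rw [mem_filter, mem_range] at hm
        exact g2 m (by omega)
      refine (sum_le_sum e1).trans ?_
      rw [sum_const, nsmul_eq_mul]
      calc (((range (z x + 1)).filter (fun m : ℕ => (m : ℝ) < y)).card : ℝ) * (C * L / x) ≤ 2 * y * (C * L / x) :=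
            mul_le_mul_of_nonneg_right hcard (by positivity)
        _ = 2 * C * (1 / L ^ 2) := by rw [hy]; field_simp
        _ ≤ 2 * C * (1 / L) := by
            refine mul_le_mul_of_nonneg_left ?_ (by positivity)
            rw [div_le_div_iff₀ (by positivity) hL0]
            nlinarith
    have hsmall0 : 0 ≤ ∑ m ∈ (range (z x + 1)).filter (fun m : ℕ => (m : ℝ) < y), ee (level Q) (TT Q u x) m :=
      sum_nonneg (fun m _ => hen x m)
    obtain ⟨w, hw⟩ : ∃ w : ℕ → ℝ, w = fun m => if m.Coprime Q then (m : ℝ) else 0 := ⟨_, rfl⟩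
    have hw0 : ∀ m, 0 ≤ w m := by
      intro m
      rw [hw]
      simp only
      split_ifs
      · exact Nat.cast_nonneg _
      · exact le_rfl
    have hVV : VV Q (z x) = ∑ m ∈ range (z x + 1), w m := by rw [hw]; rfl
    have hW1 : ∑ m ∈ (range (z x + 1)).filter (fun m : ℕ => (m : ℝ) < y), w m ≤ 2 * y * y := by
      have e1 : ∀ m ∈ (range (z x + 1)).filter (fun m : ℕ => (m : ℝ) < y), w m ≤ y := by
        intro m hm
        rw [mem_filter] at hm
        rw [hw]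
        simp only
        split_ifs
        · exact hm.2.le
        · linarith
      refine (sum_le_sum e1).trans ?_
      rw [sum_const, nsmul_eq_mul]
      exact mul_le_mul_of_nonneg_right hcard (by linarith)
    have hW10 : 0 ≤ ∑ m ∈ (range (z x + 1)).filter (fun m : ℕ => (m : ℝ) < y), w m := sum_nonneg (fun m _ => hw0 m)
    have hVs := hsplit w
    rw [← hVV] at hVs
    have hbig : ∀ m ∈ (range (z x + 1)).filter (fun m : ℕ => ¬ (m : ℝ) < y),
        2 * lam * Real.exp (-δ) * (qq Q * w m / (x : ℝ) ^ 2) ≤ ee (level Q) (TT Q u x) m ∧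
        ee (level Q) (TT Q u x) m ≤ 2 * lam * Real.exp δ * (1 + δ) * (qq Q * w m / (x : ℝ) ^ 2) := by
      intro m hm
      rw [mem_filter, mem_range, not_lt] at hm
      have := g1 m (by omega) hm.2
      rw [hw]
      exact this
    have hlow := sum_le_sum (fun m hm => (hbig m hm).1)
    have hupp := sum_le_sum (fun m hm => (hbig m hm).2)
    rw [← mul_sum] at hlow hupp
    have hsum2 : ∑ m ∈ (range (z x + 1)).filter (fun m : ℕ => ¬ (m : ℝ) < y), qq Q * w m / (x : ℝ) ^ 2 =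
        qq Q * (∑ m ∈ (range (z x + 1)).filter (fun m : ℕ => ¬ (m : ℝ) < y), w m) / (x : ℝ) ^ 2 := by
      rw [mul_sum, sum_div]
    rw [hsum2] at hlow hupp
    have hS := hsplit (fun m => ee (level Q) (TT Q u x) m)
    rw [hS]
    have hx2 : (0 : ℝ) < (x : ℝ) ^ 2 := by positivity
    constructor
    · have e1 : qq Q * VV Q (z x) / (x : ℝ) ^ 2 - qq Q * (2 / L) ≤
          qq Q * (∑ m ∈ (range (z x + 1)).filter (fun m : ℕ => ¬ (m : ℝ) < y), w m) / (x : ℝ) ^ 2 := by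
        have e2 : 2 * y * y / (x : ℝ) ^ 2 ≤ 2 / L := by
          have e3 : 2 * y * y / (x : ℝ) ^ 2 = 2 / L ^ 6 := by rw [hy]; field_simp
          rw [e3]
          refine div_le_div_of_nonneg_left (by norm_num) hL0 ?_
          calc L = L ^ 1 := (pow_one L).symm
            _ ≤ L ^ 6 := pow_le_pow_right₀ g4 (by norm_num)
        have e4 : VV Q (z x) - 2 * y * y ≤ ∑ m ∈ (range (z x + 1)).filter (fun m : ℕ => ¬ (m : ℝ) < y), w m := by linarith
        have e5 : qq Q * (VV Q (z x) - 2 * y * y) / (x : ℝ) ^ 2 ≤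
            qq Q * (∑ m ∈ (range (z x + 1)).filter (fun m : ℕ => ¬ (m : ℝ) < y), w m) / (x : ℝ) ^ 2 :=
          div_le_div_of_nonneg_right (mul_le_mul_of_nonneg_left e4 hq.le) hx2.le
        have e6 : qq Q * (VV Q (z x) - 2 * y * y) / (x : ℝ) ^ 2 = qq Q * VV Q (z x) / (x : ℝ) ^ 2 - qq Q * (2 * y * y / (x : ℝ) ^ 2) := by
          ring
        have e7 : qq Q * (2 * y * y / (x : ℝ) ^ 2) ≤ qq Q * (2 / L) := mul_le_mul_of_nonneg_left e2 hq.le
        linarith
      have e2 := mul_le_mul_of_nonneg_left e1 (show 0 ≤ 2 * lam * Real.exp (-δ) by positivity)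
      linarith
    · have e1 : qq Q * (∑ m ∈ (range (z x + 1)).filter (fun m : ℕ => ¬ (m : ℝ) < y), w m) / (x : ℝ) ^ 2 ≤
          qq Q * VV Q (z x) / (x : ℝ) ^ 2 :=
        div_le_div_of_nonneg_right (mul_le_mul_of_nonneg_left (by linarith) hq.le) hx2.le
      have e2 := mul_le_mul_of_nonneg_left e1 (show 0 ≤ 2 * lam * Real.exp δ * (1 + δ) by positivity)
      linarith
  rw [← hlam, Metric.tendsto_nhds]
  intro ε hε
  -- choose `δ`
  have h1 : Tendsto (fun δ : ℝ => 2 * lam * Real.exp (-δ) * (θ ^ 2 / 2)) (𝓝[>] 0) (𝓝 (2 * lam * Real.exp (-0) * (θ ^ 2 / 2))) := by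
    refine Tendsto.mono_left ?_ nhdsWithin_le_nhds
    exact (Continuous.tendsto (by fun_prop) 0)
  have h2 : Tendsto (fun δ : ℝ => 2 * lam * Real.exp δ * (1 + δ) * (θ ^ 2 / 2)) (𝓝[>] 0) (𝓝 (2 * lam * Real.exp 0 * (1 + 0) * (θ ^ 2 / 2))) := by
    refine Tendsto.mono_left ?_ nhdsWithin_le_nhds
    exact (Continuous.tendsto (by fun_prop) 0)
  have e1 : 2 * lam * Real.exp (-0) * (θ ^ 2 / 2) = θ ^ 2 * lam := by rw [neg_zero, Real.exp_zero]; ring
  have e2 : 2 * lam * Real.exp 0 * (1 + 0) * (θ ^ 2 / 2) = θ ^ 2 * lam := by rw [Real.exp_zero]; ring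
  rw [e1] at h1
  rw [e2] at h2
  obtain ⟨δ, g1, g2, g3⟩ := ((h1.eventually_const_lt (show θ ^ 2 * lam - ε < θ ^ 2 * lam by linarith)).and
    ((h2.eventually_lt_const (show θ ^ 2 * lam < θ ^ 2 * lam + ε by linarith)).and self_mem_nhdsWithin)).exists
  have hlow : Tendsto (fun x : ℕ => 2 * lam * Real.exp (-δ) * (qq Q * VV Q (z x) / (x : ℝ) ^ 2 - qq Q * (2 / Real.log x))) atTop
      (𝓝 (2 * lam * Real.exp (-δ) * (θ ^ 2 / 2 - qq Q * 0))) := by
    refine Tendsto.const_mul _ ((VV_z_lim hQ hz hzl).sub (Tendsto.const_mul _ ?_))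
    exact tendsto_const_nhds.div_atTop hl
  have hupp : Tendsto (fun x : ℕ => 2 * lam * Real.exp δ * (1 + δ) * (qq Q * VV Q (z x) / (x : ℝ) ^ 2) + 2 * C * (1 / Real.log x)) atTop
      (𝓝 (2 * lam * Real.exp δ * (1 + δ) * (θ ^ 2 / 2) + 2 * C * 0)) :=
    ((VV_z_lim hQ hz hzl).const_mul _).add (hinvl.const_mul _)
  rw [mul_zero, sub_zero] at hlow
  rw [mul_zero, add_zero] at hupp
  filter_upwards [key δ g3, hlow.eventually_const_lt g1, hupp.eventually_lt_const g2] with x k1 k2 k3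
  rw [Real.dist_eq, abs_lt]
  constructor <;> linarith [k1.1, k1.2]

variable {Ω : Type*} [MeasurableSpace Ω] {μ : Measure Ω} [IsProbabilityMeasure μ] {A : Ω → Set ℕ}

/-- The law of the maximal gap up to `z x`. -/
theorem gumbel_z (hA : IsModel μ (level Q) A) (hQ : 1 ≤ Q) {z : ℕ → ℕ} (hz : ∀ x, z x ≤ x) {θ : ℝ}
    (hzl : Tendsto (fun x : ℕ => (z x : ℝ) / x) atTop (𝓝 θ)) (u : ℝ) :
    Tendsto (fun x : ℕ => μ.real (noLong A (TT Q u x) (z x + 1))) atTop (𝓝 (Real.exp (-(θ ^ 2 * Real.exp (-u))))) := by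
  have h1 := ssum_z_lim hQ hz hzl u
  have hTbig : ∀ᶠ x : ℕ in atTop, 1 ≤ TT Q u x := by
    have hll : ∀ᶠ x : ℕ in atTop, 2 * Real.log (Real.log x) ^ 2 ≤ 1 * Real.log x := hl.eventually (ev_loglog_sq 2 one_pos)
    have hl1 : ∀ᶠ x : ℕ in atTop, 1 ≤ Real.log (Real.log x) := (Real.tendsto_log_atTop.comp hl).eventually_ge_atTop 1
    filter_upwards [hll, hl1, hl.eventually_ge_atTop (2 * (|cen Q u| + 1))] with x g1 g2 g3
    unfold TT
    rw [Nat.one_le_floor_iff]
    have e1 := neg_abs_le (cen Q u)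
    have e2 : 0 ≤ |cen Q u| := abs_nonneg _
    have e3 : 2 * Real.log (Real.log x) ≤ Real.log x := by nlinarith
    have e4 : 1 ≤ Real.log (x : ℝ) := by linarith
    have e5 : 1 ≤ Real.log (x : ℝ) - Real.log (Real.log x) + cen Q u := by linarith
    calc (1 : ℝ) = 1 * 1 := (mul_one 1).symm
      _ ≤ Real.log x * (Real.log x - Real.log (Real.log x) + cen Q u) := mul_le_mul e4 e5 zero_le_one (by linarith)
  have hup : Tendsto (fun x : ℕ => Real.exp (-∑ m ∈ range (z x + 1), ee (level Q) (TT Q u x) m)) atTop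
      (𝓝 (Real.exp (-(θ ^ 2 * Real.exp (-u))))) := (Real.continuous_exp.tendsto _).comp h1.neg
  rw [tendsto_order]
  constructor
  · intro c hc
    -- choose `s`
    have h2 : Tendsto (fun s : ℝ => Real.exp (-((1 + 4 * s) * (1 + 2 * s) * (θ ^ 2 * Real.exp (-u))))) (𝓝[>] 0)
        (𝓝 (Real.exp (-((1 + 4 * 0) * (1 + 2 * 0) * (θ ^ 2 * Real.exp (-u)))))) := by
      refine Tendsto.mono_left ?_ nhdsWithin_le_nhds
      exact (Continuous.tendsto (by fun_prop) 0)
    have e1 : Real.exp (-((1 + 4 * 0) * (1 + 2 * 0) * (θ ^ 2 * Real.exp (-u)))) = Real.exp (-(θ ^ 2 * Real.exp (-u))) := by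
      congr 1
      ring
    rw [e1] at h2
    have h3 : ∀ᶠ s : ℝ in 𝓝[>] 0, s < 1 / 8 := mem_nhdsWithin_of_mem_nhds (Iio_mem_nhds (by norm_num))
    obtain ⟨s, g1, g2, g3⟩ := ((h2.eventually_const_lt hc).and (h3.and self_mem_nhdsWithin)).exists
    have h4 : Tendsto (fun x : ℕ => Real.exp (-((1 + 4 * s) * (1 + 2 * s) * ∑ m ∈ range (z x + 1), ee (level Q) (TT Q u x) m)))
        atTop (𝓝 (Real.exp (-((1 + 4 * s) * (1 + 2 * s) * (θ ^ 2 * Real.exp (-u)))))) :=
      (Real.continuous_exp.tendsto _).comp (h1.const_mul _).neg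
    filter_upwards [h4.eventually_const_lt g1, local_small hQ u g3, hTbig] with x k1 k2 k3
    exact k1.trans_le (le_noLong hA k3 g2.le fun M hM => k2 M (by have := hz x; omega)).2
  · intro c hc
    filter_upwards [hup.eventually_lt_const hc] with x hx
    exact (noLong_le hA _ _).trans_lt hx


end Pool.Agent.H595.AS
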